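import Pool.Agent.P.MP_e9161b_co.Defs

/-! Counting edges, the weighted greedy independent set and graphs without large homogeneous
sets. -/

namespace Pool.Agent.P.MP_e9161b_co

open Finset SimpleGraph

variable {V : Type} [Fintype V]

/-- The degree. -/
noncomputable def dg (G : SimpleGraph V) (v : V) : ℕ := (G.neighborSet v).ncard

/-- The number of edges. -/
noncomputable def ec (G : SimpleGraph V) : ℕ := G.edgeSet.ncard

open Classical in
lemma dg_eq (G : SimpleGraph V) (v : V) : dg G v = G.degree v := by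
  rw [dg, ← card_neighborSet_eq_degree, Set.ncard_eq_toFinset_card', Set.toFinset_card]

open Classical in
lemma ec_eq (G : SimpleGraph V) : ec G = G.edgeFinset.card := by
  rw [ec, ← coe_edgeFinset, Set.ncard_coe_finset]

lemma handshake (G : SimpleGraph V) : ∑ v, dg G v = 2 * ec G := by
  classical
  rw [ec_eq, ← sum_degrees_eq_twice_card_edges]
  exact Finset.sum_congr rfl fun v _ => dg_eq G v

omit [Fintype V] in
lemma dg_le {G : SimpleGraph V} {v : V} {A : Finset V} (h : ∀ u, G.Adj v u → u ∈ A) :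
    dg G v ≤ A.card := by
  rw [dg, ← Set.ncard_coe_finset]
  exact Set.ncard_le_ncard (fun u hu => h u hu) A.finite_toSet

lemma le_dg {G : SimpleGraph V} {v : V} {A : Finset V} (h : ∀ u ∈ A, G.Adj v u) :
    A.card ≤ dg G v := by
  rw [dg, ← Set.ncard_coe_finset]
  exact Set.ncard_le_ncard (fun u hu => h u hu) (Set.toFinite _)

lemma exists_nbr (G : SimpleGraph V) (v : V) :
    ∃ A : Finset V, A.card = dg G v ∧ ∀ u, u ∈ A ↔ G.Adj v u := by
  classical
  exact ⟨G.neighborFinset v, (dg_eq G v).symm, fun u => G.mem_neighborFinset v u⟩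

lemma ec_mono {G H : SimpleGraph V} (h : G ≤ H) : ec G ≤ ec H :=
  Set.ncard_le_ncard (edgeSet_mono h) (Set.toFinite _)

omit [Fintype V] in
lemma exists_mid {G H : SimpleGraph V} (h : G ≤ H) {M : ℕ} (h1 : ec G ≤ M) (h2 : M ≤ ec H) :
    ∃ K, G ≤ K ∧ K ≤ H ∧ ec K = M := by
  obtain ⟨u, a, b, c⟩ := Set.exists_subsuperset_card_eq (edgeSet_mono h) h1 h2
  have e : (fromEdgeSet u).edgeSet = u := by
    rw [edgeSet_fromEdgeSet]
    ext x
    exact ⟨fun hx => hx.1, fun hx => ⟨hx, H.not_isDiag_of_mem_edgeSet (b hx)⟩⟩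
  refine ⟨fromEdgeSet u, ?_, ?_, by rw [ec, e, c]⟩
  · rw [← edgeSet_subset_edgeSet, e]
    exact a
  · rw [← edgeSet_subset_edgeSet, e]
    exact b

/-- The graph with the vertices of `X` made isolated. -/
def del (G : SimpleGraph V) (X : Finset V) : SimpleGraph V where
  Adj p q := G.Adj p q ∧ p ∉ X ∧ q ∉ X
  symm := ⟨fun _ _ h => ⟨h.1.symm, h.2.2, h.2.1⟩⟩
  loopless := ⟨fun _ h => h.1.ne rfl⟩

lemma ec_le_del (G : SimpleGraph V) (X : Finset V) : ec G ≤ ec (del G X) + ∑ x ∈ X, dg G x := by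
  classical
  rw [ec_eq, ec_eq]
  have h : G.edgeFinset ⊆ (del G X).edgeFinset ∪ X.biUnion fun x => G.incidenceFinset x := by
    intro e he
    induction e using Sym2.ind with
    | _ p q =>
      have h1 : G.Adj p q := by simpa using he
      by_cases hp : p ∈ X
      · exact mem_union_right _ (mem_biUnion.2 ⟨p, hp, by simpa [incidenceSet] using h1⟩)
      · by_cases hq : q ∈ X
        · exact mem_union_right _ (mem_biUnion.2 ⟨q, hq, by simpa [incidenceSet] using h1⟩)
        · exact mem_union_left _ (by simpa [del] using ⟨h1, hp, hq⟩)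
  refine (card_le_card h).trans ((card_union_le _ _).trans (Nat.add_le_add le_rfl ?_))
  refine card_biUnion_le.trans (Finset.sum_le_sum fun x _ => ?_)
  rw [card_incidenceFinset_eq_degree, dg_eq]

lemma del_le_ec (G : SimpleGraph V) (X : Finset V) :
    2 * ec (del G X) + ∑ x ∈ X, dg G x ≤ 2 * ec G := by
  classical
  rw [← handshake, ← handshake, ← Finset.sum_add_sum_compl X, ← Finset.sum_add_sum_compl X (dg G)]
  have h1 : ∑ x ∈ X, dg (del G X) x = 0 := Finset.sum_eq_zero fun x hx =>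
    Nat.le_zero.1 (dg_le (A := ∅) fun u hu => absurd hx hu.2.1)
  have h2 : ∑ x ∈ Xᶜ, dg (del G X) x ≤ ∑ x ∈ Xᶜ, dg G x := Finset.sum_le_sum fun x _ =>
    Set.ncard_le_ncard (fun u hu => hu.1) (Set.toFinite _)
  omega

/-- Edges at vertices of weight zero are free. -/
lemma realize (H : SimpleGraph V) (Z : Finset V) (hH : ∀ p q, H.Adj p q → p ∉ Z) {y : V → ℝ}
    (h0 : ∀ v, 0 ≤ y v) (hz : ∀ v ∈ Z, y v = 0)
    (hy : ∀ S, Disjoint S Z → Homog H S → ∑ v ∈ S, y v ≤ 1) {M : ℕ} (h1 : ec H ≤ M)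
    (h2 : 2 * M ≤ 2 * ec H + Z.card * (Fintype.card V - 1)) : ∃ K, ec K = M ∧ Feas K y := by
  classical
  let T : SimpleGraph V :=
    { Adj := fun p q => H.Adj p q ∨ (p ≠ q ∧ (p ∈ Z ∨ q ∈ Z))
      symm := ⟨fun _ _ h => h.elim (fun h => Or.inl h.symm) fun h => Or.inr ⟨h.1.symm, h.2.symm⟩⟩
      loopless := ⟨fun _ h => h.elim (fun h => h.ne rfl) fun h => h.1 rfl⟩ }
  have hT : H ≤ T := fun p q h => Or.inl h
  have h3 : M ≤ ec T := by
    have e1 := del_le_ec T Z
    have e2 : ec H ≤ ec (del T Z) := ec_mono fun p q h => ⟨Or.inl h, hH p q h, hH q p h.symm⟩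
    have e3 : Z.card * (Fintype.card V - 1) ≤ ∑ x ∈ Z, dg T x := by
      rw [← smul_eq_mul, ← Finset.sum_const]
      refine Finset.sum_le_sum fun x hx => ?_
      rw [← Finset.card_univ, ← Finset.card_erase_of_mem (mem_univ x)]
      exact le_dg fun u hu => Or.inr ⟨(ne_of_mem_erase hu).symm, Or.inl hx⟩
    omega
  obtain ⟨K, k1, k2, k3⟩ := exists_mid hT h1 h3
  refine ⟨K, k3, h0, fun S hS => ?_⟩
  have e : ∑ v ∈ S, y v = ∑ v ∈ S \ Z, y v :=
    (Finset.sum_subset sdiff_subset fun x hx hx' => hz x (by simpa [hx] using hx')).symm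
  rw [e]
  refine hy _ sdiff_disjoint ?_
  rcases hS.mono (sdiff_subset (t := Z)) with h | h
  · exact Or.inl fun p hp q hq hpq ha => h hp hq hpq (k1 ha)
  · refine Or.inr fun p hp q hq hpq => (k2 (h hp hq hpq)).elim id fun h' => ?_
    exact h'.2.elim (fun a => absurd a (mem_sdiff.1 hp).2) fun a => absurd a (mem_sdiff.1 hq).2

lemma caro (G : SimpleGraph V) {y : V → ℝ} (h0 : ∀ v, 0 ≤ y v) (A : Finset V) :
    ∃ I ⊆ A, G.IsIndepSet (I : Set V) ∧ ∑ u ∈ A, y u / (dg G u + 1) ≤ ∑ u ∈ I, y u := by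
  classical
  induction A using Finset.strongInduction with
  | H A ih =>
    rcases A.eq_empty_or_nonempty with rfl | hA
    · exact ⟨∅, Subset.rfl, by simp, by simp⟩
    obtain ⟨v, hv, hm⟩ := A.exists_max_image (fun u => y u / (dg G u + 1)) hA
    obtain ⟨N, hN, hN'⟩ := exists_nbr G v
    obtain ⟨I, h1, h2, h3⟩ := ih (A \ insert v N)
      (Finset.ssubset_iff_subset_ne.2 ⟨sdiff_subset, fun e => by
        have : v ∈ A \ insert v N := e.symm ▸ hv
        simp at this⟩)
    have hvI : v ∉ I := fun h => by simpa using h1 h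
    refine ⟨insert v I, insert_subset hv (h1.trans sdiff_subset), ?_, ?_⟩
    · rw [Finset.coe_insert]
      refine Set.Pairwise.insert h2 fun u hu _ => ?_
      have : ¬G.Adj v u := fun h => (mem_sdiff.1 (h1 hu)).2 (mem_insert_of_mem ((hN' u).2 h))
      exact ⟨this, fun h => this h.symm⟩
    · rw [Finset.sum_insert hvI, ← Finset.sum_sdiff (inter_subset_left (s₂ := insert v N)),
        sdiff_inter_self_left]
      have e1 : ∑ u ∈ A ∩ insert v N, y u / (dg G u + 1) ≤
          (A ∩ insert v N).card • (y v / (dg G v + 1)) :=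
        Finset.sum_le_card_nsmul _ _ _ fun u hu => hm u (mem_inter.1 hu).1
      have e2 : ((A ∩ insert v N).card : ℝ) ≤ dg G v + 1 := by
        have := (card_le_card (inter_subset_right (s₁ := A))).trans (card_insert_le v N)
        rw [hN] at this
        exact_mod_cast this
      have e3 : (0 : ℝ) < dg G v + 1 := by positivity
      rw [nsmul_eq_mul] at e1
      have e4 := mul_le_mul_of_nonneg_right e2 (div_nonneg (h0 v) e3.le)
      rw [mul_div_cancel₀ _ e3.ne'] at e4
      linarith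

lemma Feas.caro {G : SimpleGraph V} {y : V → ℝ} (h : Feas G y) :
    ∑ u, y u / (dg G u + 1) ≤ 1 := by
  obtain ⟨I, -, h2, h3⟩ := Pool.Agent.P.MP_e9161b_co.caro G h.1 univ
  exact h3.trans (h.2 I (Or.inl h2))

lemma erdos {j : ℕ} (hj : 1 ≤ j) (hn : Fintype.card V ≤ 2 ^ j) :
    ∃ H : SimpleGraph V, ∀ S, Homog H S → S.card ≤ 2 * j := by
  classical
  let P : Finset V → Finset (Sym2 V) := fun S => S.offDiag.image Sym2.mk.uncurry
  have hP : ∀ S ∈ powersetCard (2 * j + 1) (univ : Finset V), (P S).card = j * (2 * j + 1) := by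
    intro S hS
    rw [Sym2.card_image_offDiag, (mem_powersetCard.1 hS).2, Nat.choose_two_right,
      Nat.add_sub_cancel, mul_comm (2 * j + 1), mul_assoc, Nat.mul_div_cancel_left _ two_pos]
  let B : Finset (Finset (Sym2 V)) := (powersetCard (2 * j + 1) univ).biUnion fun S =>
    Icc (P S) univ ∪ powerset (P S)ᶜ
  have hB : B.card < Fintype.card (Finset (Sym2 V)) := by
    rw [Fintype.card_finset]
    have h1 : B.card ≤ (Fintype.card V).choose (2 * j + 1) *
        (2 * 2 ^ (Fintype.card (Sym2 V) - j * (2 * j + 1))) := by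
      refine card_biUnion_le.trans ((Finset.sum_le_card_nsmul _ _
        (2 * 2 ^ (Fintype.card (Sym2 V) - j * (2 * j + 1))) fun S hS =>
          (card_union_le _ _).trans ?_).trans ?_)
      · rw [card_Icc_finset (subset_univ _), card_powerset, card_compl, hP S hS, Finset.card_univ]
        omega
      · rw [card_powersetCard, smul_eq_mul, Finset.card_univ]
    rcases Nat.eq_zero_or_pos ((Fintype.card V).choose (2 * j + 1)) with h | h
    · rw [h, zero_mul] at h1
      exact h1.trans_lt (by positivity)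
    · obtain ⟨S, hS⟩ : (powersetCard (2 * j + 1) (univ : Finset V)).Nonempty := by
        rw [← card_pos, card_powersetCard, Finset.card_univ]
        exact h
      have h2 : j * (2 * j + 1) ≤ Fintype.card (Sym2 V) := hP S hS ▸ card_le_univ _
      have h3 : (2 * j + 1).factorial * (Fintype.card V).choose (2 * j + 1) ≤
          2 ^ (j * (2 * j + 1)) := by
        rw [← Nat.descFactorial_eq_factorial_mul_choose, pow_mul]
        exact (Nat.descFactorial_le_pow _ _).trans (Nat.pow_le_pow_left hn _)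
      have h4 : 3 ≤ (2 * j + 1).factorial := le_trans (by omega) (Nat.self_le_factorial _)
      have h5 : (Fintype.card V).choose (2 * j + 1) * 2 < 2 ^ (j * (2 * j + 1)) := by nlinarith
      refine h1.trans_lt ?_
      rw [← mul_assoc]
      conv_rhs => rw [← Nat.add_sub_cancel' h2, pow_add]
      exact Nat.mul_lt_mul_of_pos_right h5 (by positivity)
  obtain ⟨F, -, hF⟩ := exists_mem_notMem_of_card_lt_card (s := B) (t := univ) hB
  refine ⟨fromEdgeSet F, fun S hS => ?_⟩
  by_contra hc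
  obtain ⟨T, hT, hT'⟩ := exists_subset_card_eq (not_le.1 hc)
  refine hF (mem_biUnion.2 ⟨T, mem_powersetCard.2 ⟨subset_univ _, hT'⟩, ?_⟩)
  rcases hS.mono hT with h | h
  · refine mem_union_right _ (mem_powerset.2 fun e he => mem_compl.2 fun he' => ?_)
    obtain ⟨⟨p, q⟩, h1, rfl⟩ := mem_image.1 he'
    obtain ⟨a, b, c⟩ := mem_offDiag.1 h1
    exact h a b c ((fromEdgeSet_adj _).2 ⟨he, c⟩)
  · refine mem_union_left _ (mem_Icc.2 ⟨fun e he' => ?_, subset_univ _⟩)
    obtain ⟨⟨p, q⟩, h1, rfl⟩ := mem_image.1 he'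
    obtain ⟨a, b, c⟩ := mem_offDiag.1 h1
    exact ((fromEdgeSet_adj _).1 (h a b c)).1

end Pool.Agent.P.MP_e9161b_co
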