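import Pool.Agent.P.MP_e9161b_co.Slack

/-! The three cases. -/

namespace Pool.Agent.P.MP_e9161b_co

open Finset SimpleGraph

variable {V : Type} [Fintype V]

omit [Fintype V] in
lemma homog_card {G : SimpleGraph V} {y : V → ℝ} (h : Feas G y) {S : Finset V} (hS : Homog G S)
    {c : ℝ} (hc : ∀ u ∈ S, c ≤ y u) : S.card * c ≤ 1 := by
  rw [← nsmul_eq_mul]
  exact (Finset.card_nsmul_le_sum _ _ _ hc).trans (h.2 S hS)

omit [Fintype V] in
lemma few_heavy {G : SimpleGraph V} {y : V → ℝ} (h : Feas G y) {T : Finset V} {c : ℝ} {s : ℕ}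
    (hs : 1 ≤ s * c) (hc : ∀ u ∈ T, c ≤ y u) : T.card ≤ 4 ^ s := by
  have h0 : 0 < c := by
    by_contra e
    nlinarith [not_lt.1 e, Nat.cast_nonneg (α := ℝ) s]
  have h1 : ∀ S ⊆ T, Homog G S → S.card ≤ s := fun S hS hh => by
    have := (homog_card h hh fun u hu => hc u (hS hu)).trans hs
    exact_mod_cast le_of_mul_le_mul_right this h0
  refine (ramsey G _ s s rfl T (fun S hS hh => h1 S hS (Or.inr hh))
    fun S hS hh => h1 S hS (Or.inl hh)).le.trans ((Nat.choose_le_two_pow _ _).trans ?_)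
  rw [← two_mul, pow_mul]
  norm_num

lemma few_mid {G : SimpleGraph V} {y : V → ℝ} (h : Feas G y) {A : Finset V} {c : ℝ} {s t : ℕ}
    (c0 : 0 < c) (s0 : 0 < s) (ht : 8 ≤ c * Fintype.card V * t)
    (hA : ∀ u ∈ A, c * dg G u ≤ y u ∧ (Fintype.card V : ℝ) / s ≤ dg G u)
    (A4 : Fintype.card V ≤ 4 * A.card) :
    A.card ≤ 2 * (s * t + (3 * (s + 1)) ^ t * (3 * (s + 1)) ^ t) := by
  have s0' : (0 : ℝ) < s := by exact_mod_cast s0
  have n0 : (0 : ℝ) < Fintype.card V := by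
    by_contra e
    have : (Fintype.card V : ℝ) = 0 := le_antisymm (not_lt.1 e) (Nat.cast_nonneg _)
    rw [this] at ht
    norm_num at ht
  have h1 := choose_le (a := s * t) (t := t) (s := s + 1) (by rw [add_mul, one_mul])
  refine (es G A (s * t) t (fun S hS hh => ?_) fun S hS hh => ?_).trans
    (Nat.mul_le_mul_left _ (Nat.add_le_add_left (Nat.mul_le_mul h1 h1) _))
  · have e := homog_card h hh (c := c * (Fintype.card V / s)) fun u hu =>
      (mul_le_mul_of_nonneg_left (hA u (hS hu)).2 c0.le).trans (hA u (hS hu)).1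
    rw [← mul_div_assoc, ← mul_div_assoc, div_le_one s0'] at e
    have e2 : (S.card : ℝ) * (c * Fintype.card V) ≤ s * t * (c * Fintype.card V) := by nlinarith
    exact_mod_cast le_of_mul_le_mul_right e2 (by positivity)
  · have e : c * ∑ u ∈ S, (dg G u : ℝ) ≤ 1 := by
      rw [Finset.mul_sum]
      exact (Finset.sum_le_sum fun u hu => (hA u (hS hu)).1).trans (h.2 S (Or.inl hh))
    have e1 : (Fintype.card V : ℝ) ≤ 4 * A.card := by exact_mod_cast A4
    have e2 : c * (2 * ∑ u ∈ S, (dg G u : ℝ)) ≤ c * (A.card * t) := by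
      nlinarith [mul_le_mul_of_nonneg_left e1 (mul_nonneg c0.le (Nat.cast_nonneg t))]
    exact_mod_cast le_of_mul_le_mul_left e2 c0

lemma exists_good {G : SimpleGraph V} {y : V → ℝ} (h : Feas G y) (hd : ∀ v, 1 ≤ dg G v) {s : ℕ}
    (n0 : 0 < Fintype.card V)
    (hs : 4 ≤ s * ((∑ p, y p) / (256 * ec G) * Fintype.card V)) (hZ : 2 * 4 ^ s < ∑ p, y p) :
    ∃ v, (dg G v : ℝ) ≤ Fintype.card V / 32 ∧ 2 * ((∑ p, y p) / (256 * ec G)) *
      (4 * dg G v + 2 + 4 * (8 * ec G / Fintype.card V)) ≤ y v := by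
  classical
  have e1 : ∑ v, (dg G v : ℝ) = 2 * ec G := by exact_mod_cast handshake G
  have hd' : ∀ v, (1 : ℝ) ≤ dg G v := fun v => by exact_mod_cast hd v
  have hnm := markov (f := fun v => (dg G v : ℝ)) (fun v => Nat.cast_nonneg _) 1 univ
    fun v _ => hd' v
  rw [e1, Finset.card_univ, mul_one] at hnm
  have n0' : (0 : ℝ) < Fintype.card V := by exact_mod_cast n0
  set Z := ∑ p, y p with hZd
  set n : ℝ := (Fintype.card V : ℝ) with hnd
  set m : ℝ := (ec G : ℝ) with hmd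
  have m0 : 0 < m := by linarith
  have Z0 : 0 < Z := lt_trans (by positivity) hZ
  set c := Z / (256 * m) with hc
  have c0 : 0 < c := by positivity
  have c1 : c * (256 * m) = Z := div_mul_cancel₀ _ (by positivity)
  set D := 8 * m / n with hD
  have D0 : 0 < D := by positivity
  have D2 : D * n = 8 * m := div_mul_cancel₀ _ n0'.ne'
  by_contra hv
  push Not at hv
  let T := univ.filter fun u => c * n / 4 ≤ y u
  have t1 : T.card ≤ 4 ^ s := few_heavy h (c := c * n / 4) (by linarith)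
    fun u hu => (mem_filter.1 hu).2
  have t2 : (T.card : ℝ) ≤ 4 ^ s := by exact_mod_cast t1
  have t3 : Z ≤ ∑ p, ((if p ∈ T then 1 else 0) + 2 * c * (4 * dg G p + (2 + 4 * D))) := by
    refine Finset.sum_le_sum fun p _ => ?_
    have d1 := hd' p
    have d2 : 0 < 2 * c * (4 * dg G p + (2 + 4 * D)) := by positivity
    by_cases e : p ∈ T
    · rw [if_pos e]
      linarith [h.le_one p]
    · rw [if_neg e]
      by_cases e2 : (dg G p : ℝ) ≤ n / 32
      · linarith [hv p e2]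
      · have d3 : y p < c * n / 4 := not_le.1 fun x => e (mem_filter.2 ⟨mem_univ _, x⟩)
        nlinarith [not_le.1 e2, mul_pos c0 D0]
  rw [Finset.sum_add_distrib, Finset.sum_ite_mem, univ_inter, Finset.sum_const, nsmul_eq_mul,
    mul_one, ← Finset.mul_sum, Finset.sum_add_distrib, ← Finset.mul_sum, e1, Finset.sum_const,
    Finset.card_univ, nsmul_eq_mul, ← hnd] at t3
  have t4 : 4 * (2 * m) + n * (2 + 4 * D) ≤ 44 * m := by nlinarith
  have t5 := mul_le_mul_of_nonneg_left t4 (by positivity : 0 ≤ 2 * c)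
  nlinarith

lemma gain_ok {n k m Z j N Q : ℝ} (hj : 1 ≤ j) (hQ : 2 ^ 45 ≤ Q) (h1 : j ≤ 8 * Q)
    (h2 : Q ^ 4 ≤ n) (k0 : 0 < k) (hk : k ≤ n) (m0 : 0 < m) (hm : m ≤ 4 * (k * k))
    (hZ : k / (2 * j) < Z) (N1 : N ≤ n / (2 ^ 15 * j)) (N2 : n / (2 ^ 15 * j) < N + 1) :
    3 * (n / Q ^ 4) + 1 + Z / m * (N * N + n) ≤ N * (Z / (256 * m) * n / 16 / (2 * j)) := by
  have Q0 : 0 < Q := by linarith [show (0 : ℝ) < 2 ^ 45 by norm_num]
  have j0 : 0 < j := by linarith
  have n0 : 0 < n := by linarith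
  have Z0 : 0 < Z := lt_trans (by positivity) hZ
  set x := n / (2 ^ 15 * j) with hx
  have x0 : 0 < x := by positivity
  have x1 : x * (2 ^ 15 * j) = n := div_mul_cancel₀ _ (by positivity)
  have j2 : j ^ 2 ≤ (8 * Q) ^ 2 := pow_le_pow_left₀ j0.le h1 2
  have j3 : j ^ 3 ≤ (8 * Q) ^ 3 := pow_le_pow_left₀ j0.le h1 3
  have q2 : 2 ^ 45 * Q ^ 2 ≤ Q ^ 4 := by
    have : (2 : ℝ) ^ 45 ≤ Q ^ 2 := by nlinarith
    nlinarith [pow_pos Q0 2]
  have x2 : 2 * (2 ^ 15 * j) ^ 2 ≤ n := by nlinarith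
  have x3 : 2 * n ≤ x ^ 2 := by
    have e : 2 * n * (2 ^ 15 * j) ^ 2 ≤ x ^ 2 * (2 ^ 15 * j) ^ 2 := by
      rw [← mul_pow, x1]
      nlinarith
    exact le_of_mul_le_mul_right e (by positivity)
  have n2 : 2 ≤ n := by nlinarith
  have x4 : 2 ≤ x := by nlinarith
  have e1 : N * (Z / (256 * m) * n / 16 / (2 * j)) = Z / m * (4 * x * N) := by
    rw [hx]
    field_simp
    ring
  have e2 : x ^ 2 + (N * N + n) ≤ 4 * x * N := by nlinarith
  have e3 : 1 / (8 * j * n) ≤ Z / m := by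
    rw [div_lt_iff₀ (by positivity)] at hZ
    rw [div_le_div_iff₀ (by positivity) m0]
    nlinarith [mul_le_mul hZ.le hk k0.le (by positivity)]
  have e4 : 4 * (n / Q ^ 4) ≤ 1 / (8 * j * n) * x ^ 2 := by
    have e : 1 / (8 * j * n) * x ^ 2 = n / (2 ^ 33 * j ^ 3) := by
      rw [hx]
      field_simp
      norm_num
    rw [e, ← mul_div_assoc, div_le_div_iff₀ (by positivity) (by positivity)]
    have : 4 * (2 ^ 33 * j ^ 3) ≤ Q ^ 4 := by nlinarith [pow_pos Q0 3]
    nlinarith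
  have e5 : 1 ≤ n / Q ^ 4 := (one_le_div (by positivity)).2 h2
  have e6 := mul_le_mul_of_nonneg_right e3 (sq_nonneg x)
  have e7 := mul_le_mul_of_nonneg_left e2 (by positivity : 0 ≤ Z / m)
  rw [e1]
  nlinarith

end Pool.Agent.P.MP_e9161b_co
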