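import Mathlib

/-!
The fractional cochromatic number, its maximum over graphs with given numbers of vertices and
edges, and linear programming duality.
-/

namespace Pool.Agent.P.MP_e9161b_co

open Finset

/-- A set of vertices is homogeneous if it is independent or a clique. -/
def Homog {V : Type} (G : SimpleGraph V) (S : Finset V) : Prop :=
  G.IsIndepSet (S : Set V) ∨ G.IsClique (S : Set V)

open Classical in
/-- A fractional cover of the vertices by homogeneous sets. -/
def IsCover {V : Type} [Fintype V] (G : SimpleGraph V) (w : Finset V → ℝ) : Prop :=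
  (∀ S, 0 ≤ w S) ∧ (∀ S, ¬Homog G S → w S = 0) ∧
    ∀ v : V, 1 ≤ ∑ S ∈ Finset.univ.filter (fun S : Finset V => v ∈ S), w S

/-- The fractional cochromatic number: the least total weight of a fractional cover. -/
noncomputable def Zf {V : Type} [Fintype V] (G : SimpleGraph V) : ℝ :=
  sInf {t | ∃ w, IsCover G w ∧ ∑ S, w S = t}

/-- The largest fractional cochromatic number of a graph with `n` vertices and `m` edges. -/
noncomputable def Zmax (n m : ℕ) : ℝ :=
  sSup {z | ∃ G : SimpleGraph (Fin n), G.edgeSet.ncard = m ∧ Zf G = z}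

/-- Feasible points of the dual program. -/
def Feas {V : Type} (G : SimpleGraph V) (y : V → ℝ) : Prop :=
  (∀ v, 0 ≤ y v) ∧ ∀ S, Homog G S → ∑ v ∈ S, y v ≤ 1

variable {V : Type} [Fintype V]

omit [Fintype V] in
lemma Homog.mono {G : SimpleGraph V} {S T : Finset V} (h : Homog G T) (hs : S ⊆ T) :
    Homog G S := by
  rcases h with h | h
  · exact Or.inl (Set.Pairwise.mono (Finset.coe_subset.2 hs) h)
  · exact Or.inr (Set.Pairwise.mono (Finset.coe_subset.2 hs) h)

omit [Fintype V] in
lemma homog_single (G : SimpleGraph V) (v : V) : Homog G {v} := by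
  refine Or.inr ?_
  rw [Finset.coe_singleton]
  exact Set.pairwise_singleton _ _

omit [Fintype V] in
lemma Feas.le_one {G : SimpleGraph V} {y : V → ℝ} (h : Feas G y) (v : V) : y v ≤ 1 := by
  simpa using h.2 _ (homog_single G v)

lemma cover_nonempty (G : SimpleGraph V) : {t | ∃ w, IsCover G w ∧ ∑ S, w S = t}.Nonempty := by
  classical
  refine ⟨_, fun S => if Homog G S then 1 else 0, ⟨fun S => ?_, fun S hS => if_neg hS,
    fun v => ?_⟩, rfl⟩
  · beta_reduce
    split_ifs <;> norm_num
  · refine le_trans ?_ (Finset.single_le_sum (a := ({v} : Finset V))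
      (f := fun S => if Homog G S then (1 : ℝ) else 0) (fun S _ => ?_) (by simp))
    · rw [if_pos (homog_single G v)]
    · split_ifs <;> norm_num

lemma weak {G : SimpleGraph V} {y : V → ℝ} (h : Feas G y) : ∑ v, y v ≤ Zf G := by
  classical
  refine le_csInf (cover_nonempty G) ?_
  rintro t ⟨w, ⟨h0, h1, h2⟩, rfl⟩
  calc ∑ v, y v ≤ ∑ v, ∑ S, if v ∈ S then w S * y v else 0 := by
        refine Finset.sum_le_sum fun v _ => ?_
        rw [← Finset.sum_filter, ← Finset.sum_mul]
        refine le_mul_of_one_le_left (h.1 v) ?_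
        convert h2 v using 1
    _ = ∑ S, w S * ∑ v ∈ S, y v := by
        rw [Finset.sum_comm]
        refine Finset.sum_congr rfl fun S _ => ?_
        rw [← Finset.sum_filter, Finset.mul_sum]
        simp
    _ ≤ ∑ S, w S := by
        refine Finset.sum_le_sum fun S _ => ?_
        by_cases hS : Homog G S
        · exact mul_le_of_le_one_right (h0 S) (h.2 S hS)
        · rw [h1 S hS, zero_mul]

lemma Zf_nonneg (G : SimpleGraph V) : 0 ≤ Zf G := by
  simpa using weak (G := G) (y := fun _ => 0) ⟨fun _ => le_rfl, fun S _ => by simp⟩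

lemma Zf_le {G : SimpleGraph V} {w : Finset V → ℝ} (h : IsCover G w) : Zf G ≤ ∑ S, w S := by
  refine csInf_le ⟨0, ?_⟩ ⟨w, h, rfl⟩
  rintro t ⟨w, hw, rfl⟩
  exact Finset.sum_nonneg fun S _ => hw.1 S

lemma strong {G : SimpleGraph V} {t : ℝ} (h0 : 0 < t) (ht : t < Zf G) :
    ∃ y, Feas G y ∧ t ≤ ∑ v, y v := by
  classical
  obtain ⟨s, hts, hs⟩ := exists_between ht
  have hs0 : 0 < s := h0.trans hts
  let A : Set (V → ℝ) := {x | ∀ v, 1 / s < x v}
  let B : Set (V → ℝ) := {x | ∃ w : Finset V → ℝ, (∀ S, 0 ≤ w S) ∧ (∀ S, ¬Homog G S → w S = 0) ∧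
    ∑ S, w S ≤ 1 ∧ ∀ v, x v = ∑ S ∈ Finset.univ.filter (fun S : Finset V => v ∈ S), w S}
  have hA : Convex ℝ A := by
    intro x hx z hz a b ha hb hab v
    exact convex_Ioi (𝕜 := ℝ) (1 / s) (hx v) (hz v) ha hb hab
  have hAo : IsOpen A := by
    have : A = ⋂ v, {x : V → ℝ | 1 / s < x v} := by
      ext x
      simp [A]
    rw [this]
    exact isOpen_iInter_of_finite fun v => isOpen_lt continuous_const (continuous_apply v)
  have hB : Convex ℝ B := by
    rintro x ⟨w, w0, w1, w2, w3⟩ z ⟨u, u0, u1, u2, u3⟩ a b ha hb hab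
    refine ⟨fun S => a * w S + b * u S, fun S => add_nonneg (mul_nonneg ha (w0 S))
      (mul_nonneg hb (u0 S)), fun S hS => by simp [w1 S hS, u1 S hS], ?_, fun v => ?_⟩
    · rw [Finset.sum_add_distrib, ← Finset.mul_sum, ← Finset.mul_sum]
      nlinarith
    · rw [Finset.sum_add_distrib, ← Finset.mul_sum, ← Finset.mul_sum, ← w3, ← u3]
      simp
  have hd : Disjoint A B := by
    rw [Set.disjoint_left]
    rintro x hx ⟨w, w0, w1, w2, w3⟩
    have hc : IsCover G fun S => s * w S := by
      refine ⟨fun S => mul_nonneg hs0.le (w0 S), fun S hS => by simp [w1 S hS], fun v => ?_⟩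
      have e := hx v
      rw [w3 v, div_lt_iff₀ hs0, mul_comm, Finset.mul_sum] at e
      convert e.le using 1
    have := Zf_le hc
    rw [← Finset.mul_sum] at this
    nlinarith
  obtain ⟨f, u, hfA, hfB⟩ := geometric_hahn_banach_open hA hAo hB hd
  let y : V → ℝ := fun v => -f (Pi.single v 1)
  have hf : ∀ x : V → ℝ, f x = -∑ v, x v * y v := by
    intro x
    have e : x = ∑ v, x v • (Pi.single v (1 : ℝ) : V → ℝ) := by
      ext v
      simp [Finset.sum_apply, Pi.single_apply]
    conv_lhs => rw [e, map_sum]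
    simp [y]
  have hst : 1 / s < 1 / t := one_div_lt_one_div_of_lt h0 hts
  have h1 := hfA (fun _ => 1 / t) fun _ => hst
  rw [hf, ← Finset.mul_sum] at h1
  have hy0 : ∀ v, 0 ≤ y v := by
    intro v
    by_contra hn
    have hn' : 0 < -y v := by linarith [not_le.1 hn]
    set L := (u + 1 / t * ∑ v, y v) / -y v with hL
    have hL0 : 0 ≤ L := div_nonneg (by linarith) hn'.le
    have h2 := hfA ((fun _ => 1 / t) + L • Pi.single v 1) fun z => by
      have : 0 ≤ (L • (Pi.single v (1 : ℝ) : V → ℝ)) z := by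
        by_cases hz : z = v <;> simp [hz, hL0]
      simp only [Pi.add_apply]
      linarith
    rw [map_add, map_smul, hf, ← Finset.mul_sum] at h2
    have h3 : f (Pi.single v 1) = -y v := by simp [y]
    rw [h3, smul_eq_mul, hL, div_mul_cancel₀ _ hn'.ne'] at h2
    linarith
  have hS : ∀ S, Homog G S → ∑ v ∈ S, y v ≤ -u := by
    intro S hS
    have h2 := hfB (fun v => if v ∈ S then 1 else 0) ⟨Pi.single S 1, fun T => ?_, fun T hT => ?_,
      by simp, fun v => ?_⟩
    · rw [hf] at h2
      simp only [ite_mul, one_mul, zero_mul, Finset.sum_ite_mem, Finset.univ_inter] at h2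
      linarith
    · by_cases hz : T = S <;> simp [hz]
    · have hz : T ≠ S := fun e => hT (e ▸ hS)
      simp [hz]
    · simp [Pi.single_apply]
  have hu : 0 < -u := by
    by_contra hn
    have h2 : ∑ v, y v ≤ 0 := Finset.sum_nonpos fun v _ => by
      have := hS _ (homog_single G v)
      rw [Finset.sum_singleton] at this
      linarith [not_lt.1 hn]
    have h3 := hS ∅ (Or.inr (by simp))
    rw [Finset.sum_empty] at h3
    have : 1 / t * ∑ v, y v ≤ 0 := mul_nonpos_of_nonneg_of_nonpos (by positivity) h2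
    linarith
  refine ⟨fun v => y v / -u, ⟨fun v => div_nonneg (hy0 v) hu.le, fun S h => ?_⟩, ?_⟩
  · rw [← Finset.sum_div, div_le_one hu]
    exact hS S h
  · rw [← Finset.sum_div, le_div_iff₀ hu]
    have h2 : -u < 1 / t * ∑ v, y v := by linarith
    rw [one_div, inv_mul_eq_div, lt_div_iff₀ h0] at h2
    linarith

end Pool.Agent.P.MP_e9161b_co
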