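import Pool.Agent.P.MP_e9161b_co.Step

/-! One more edge in the sparse range. -/

namespace Pool.Agent.P.MP_e9161b_co

open Finset SimpleGraph

variable {V : Type} [Fintype V]

lemma markov {f : V → ℝ} (h0 : ∀ v, 0 ≤ f v) (c : ℝ) (A : Finset V) (hA : ∀ v ∈ A, c ≤ f v) :
    A.card * c ≤ ∑ v, f v := by
  rw [← nsmul_eq_mul]
  exact (Finset.card_nsmul_le_sum _ _ _ hA).trans
    (Finset.sum_le_sum_of_subset_of_nonneg (subset_univ _) fun v _ _ => h0 v)

lemma step_large {G : SimpleGraph V} {y : V → ℝ} (h : Feas G y) (hd : ∀ v, 1 ≤ dg G v)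
    (hn : 24 ≤ Fintype.card V) (hm : 256 * ec G ≤ Fintype.card V ^ 2)
    (hZ : 736 * (ec G : ℝ) / Fintype.card V < ∑ p, y p) :
    ∃ (K : SimpleGraph V) (y' : V → ℝ), ec K = ec G + 1 ∧ Feas K y' ∧ ∑ p, y p ≤ ∑ p, y' p := by
  classical
  have hs : ∑ v, (dg G v : ℝ) = 2 * ec G := by exact_mod_cast handshake G
  have hd' : ∀ v, (1 : ℝ) ≤ dg G v := fun v => by exact_mod_cast hd v
  have hn' : (24 : ℝ) ≤ Fintype.card V := by exact_mod_cast hn
  have hm' : 256 * (ec G : ℝ) ≤ (Fintype.card V : ℝ) ^ 2 := by exact_mod_cast hm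
  have hnm := markov (f := fun v => (dg G v : ℝ)) (fun v => Nat.cast_nonneg _) 1 univ
    fun v _ => hd' v
  rw [hs, Finset.card_univ, mul_one] at hnm
  set n : ℝ := (Fintype.card V : ℝ) with hnd
  set m : ℝ := (ec G : ℝ) with hmd
  have n0 : 0 < n := by linarith
  have m0 : 0 < m := by linarith
  set D : ℝ := 8 * m / n with hD
  have D0 : 0 < D := by positivity
  have D1 : D ≤ n / 32 := by
    rw [hD, div_le_div_iff₀ n0 (by norm_num)]
    nlinarith
  have D2 : D * n = 8 * m := div_mul_cancel₀ _ n0.ne'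
  obtain ⟨v, v1, v2⟩ : ∃ v, (dg G v : ℝ) ≤ n / 16 ∧ 16 / n * (4 * dg G v + 2 + 4 * D) ≤ y v := by
    by_contra hc
    push Not at hc
    have h1 : ∑ p, y p ≤ ∑ p, 16 / n * (5 * dg G p + (2 + 4 * D)) := by
      refine Finset.sum_le_sum fun p _ => ?_
      have c0 : 0 < 16 / n := by positivity
      have c1 := hd' p
      by_cases c : (dg G p : ℝ) ≤ n / 16
      · have := hc p c
        nlinarith
      · have c2 : 16 / n * (n / 16) = 1 := by field_simp
        have c3 := h.le_one p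
        nlinarith [not_le.1 c]
    rw [← Finset.mul_sum, Finset.sum_add_distrib, ← Finset.mul_sum, hs, Finset.sum_const,
      Finset.card_univ, nsmul_eq_mul, ← hnd] at h1
    have h2 : 16 / n * (5 * (2 * m) + n * (2 + 4 * D)) ≤ 736 * m / n := by
      rw [div_mul_eq_mul_div, div_le_div_iff_of_pos_right n0]
      nlinarith
    linarith
  let U1 := univ.filter fun u => 4 / n ≤ y u / (dg G u + 1)
  let U2 := univ.filter fun u => D ≤ dg G u
  have u1 : (U1.card : ℝ) ≤ n / 4 := by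
    have := (markov (f := fun u => y u / (dg G u + 1))
      (fun u => div_nonneg (h.1 u) (by positivity)) (4 / n) U1
      fun u hu => (mem_filter.1 hu).2).trans h.caro
    rw [← mul_div_assoc, div_le_one n0] at this
    linarith
  have u2 : (U2.card : ℝ) ≤ n / 4 := by
    have := markov (f := fun u => (dg G u : ℝ)) (fun u => Nat.cast_nonneg _) D U2
      fun u hu => (mem_filter.1 hu).2
    rw [hs, hD, ← mul_div_assoc, div_le_iff₀ n0] at this
    nlinarith
  let A := (insert v (U1 ∪ U2))ᶜ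
  have a1 : ∀ x ∈ A, x ≠ v ∧ y x / (dg G x + 1) < 4 / n ∧ (dg G x : ℝ) < D := by
    intro x hx
    simpa [A, U1, U2] using hx
  have a2 : n / 2 - 1 ≤ A.card := by
    have c1 : (insert v (U1 ∪ U2)).card + A.card = Fintype.card V := card_add_card_compl _
    have c2 := (card_insert_le v (U1 ∪ U2)).trans (Nat.add_le_add_right (card_union_le _ _) 1)
    have c3 : n ≤ U1.card + U2.card + 1 + A.card := by
      rw [hnd]
      exact_mod_cast (by omega : Fintype.card V ≤ U1.card + U2.card + 1 + A.card)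
    linarith
  have a3 : (A.card : ℝ) ≤ ∑ x ∈ A, (dg G x : ℝ) := by
    simpa using Finset.card_nsmul_le_sum A (fun x => (dg G x : ℝ)) 1 fun x _ => hd' x
  obtain ⟨X, x1, x2, x3⟩ := pick (f := fun x => (dg G x : ℝ)) (B := 4 * dg G v + 2 + 3 * D)
    (by positivity) D0.le A (fun x hx => (a1 x hx).2.2.le) (by linarith)
  refine step_subst h (v := v) (X := X) (fun hx => (a1 v (x1 hx)).1 rfl) ?_ ?_ ?_ ?_
  · have c1 := Finset.sum_le_card_nsmul X (fun x => (dg G x : ℝ)) D
      fun x hx => (a1 x (x1 hx)).2.2.le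
    rw [nsmul_eq_mul] at c1
    have c2 : (3 : ℝ) < X.card := by nlinarith [hd' v]
    exact_mod_cast c2
  · have : 4 * (dg G v : ℝ) + 2 ≤ ∑ x ∈ X, (dg G x : ℝ) := by linarith
    exact_mod_cast this
  · have : ∑ x ∈ X, (dg G x : ℝ) + 2 ≤ n := by linarith
    rw [hnd] at this
    exact_mod_cast this
  · have c0 : 0 < 8 / n := by positivity
    have c1 : ∑ x ∈ X, y x ≤ ∑ x ∈ X, 8 / n * (dg G x : ℝ) := by
      refine Finset.sum_le_sum fun x hx => ?_
      have c2 := (a1 x (x1 hx)).2.1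
      rw [div_lt_iff₀ (by positivity)] at c2
      have c3 : 8 / n = 2 * (4 / n) := by ring
      nlinarith [hd' x]
    rw [← Finset.mul_sum] at c1
    have c3 : 16 / n = 2 * (8 / n) := by ring
    nlinarith

lemma step {G : SimpleGraph V} {y : V → ℝ} (h : Feas G y) {j : ℕ} (hj : 1 ≤ j)
    (hn : Fintype.card V ≤ 2 ^ j) (h2 : 2 ≤ Fintype.card V)
    (hm : (3000 * j) ^ 2 * ec G ≤ Fintype.card V ^ 2) :
    ∃ (K : SimpleGraph V) (y' : V → ℝ), ec K = ec G + 1 ∧ Feas K y' ∧ ∑ p, y p ≤ ∑ p, y' p := by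
  by_cases hi : ∃ u, dg G u = 0
  · obtain ⟨u, hu⟩ := hi
    obtain ⟨v, hv⟩ := Fintype.exists_ne_of_one_lt_card h2 u
    obtain ⟨K, k1, k2⟩ := step_isolated h hu hv.symm
    exact ⟨K, y, k1, k2, le_rfl⟩
  have hd : ∀ v, 1 ≤ dg G v := fun v => Nat.one_le_iff_ne_zero.2 fun e => hi ⟨v, e⟩
  have hnm : Fintype.card V ≤ 2 * ec G := by
    rw [← handshake]
    simpa using Finset.card_nsmul_le_sum univ (dg G) 1 fun x _ => hd x
  set n := Fintype.card V with hnd
  set m := ec G with hmd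
  have hm1 : 9000000 * m ≤ n ^ 2 := le_trans (Nat.mul_le_mul_right _ (by nlinarith)) hm
  have hn1 : 24 ≤ n := by nlinarith
  by_cases hZ : 736 * (m : ℝ) / n < ∑ p, y p
  · exact step_large h hd hn1 (le_trans (Nat.mul_le_mul_right _ (by norm_num)) hm1) hZ
  have k1 := Nat.sqrt_le m
  have k2 := Nat.lt_succ_sqrt m
  set k := Nat.sqrt m
  have k3 : 1 ≤ k := by
    by_contra c
    have : k = 0 := by omega
    rw [this] at k2
    omega
  have k4 : 2 * k ≤ n := by nlinarith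
  obtain ⟨K, y', c1, c2, c3⟩ := step_erdos (V := V) (k := k) (M := m + 1) hj hn (by omega)
    (by omega) (by
      rw [← hnd]
      have d1 : n ≤ 2 * (n - k) := by omega
      have d2 : n ≤ 2 * (n - 1) := by omega
      have d3 := Nat.mul_le_mul d1 d2
      nlinarith)
  refine ⟨K, y', c1, c2, (not_lt.1 hZ).trans ?_⟩
  have d1 : 1472 * j * m ≤ n * k := by
    rw [← Nat.mul_self_le_mul_self_iff]
    have e1 : m ≤ 4 * (k * k) := by simp only [Nat.succ_eq_add_one] at k2; nlinarith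
    calc 1472 * j * m * (1472 * j * m) = (1472 * j) ^ 2 * m * m := by ring
      _ ≤ (1472 * j) ^ 2 * m * (4 * (k * k)) := Nat.mul_le_mul_left _ e1
      _ ≤ (3000 * j) ^ 2 * m * (k * k) := by nlinarith [Nat.zero_le (j ^ 2 * m * (k * k))]
      _ ≤ n ^ 2 * (k * k) := Nat.mul_le_mul_right _ hm
      _ = n * k * (n * k) := by ring
  have d2 : 1472 * (j : ℝ) * m ≤ n * k := by exact_mod_cast d1
  rw [c3, div_le_div_iff₀ (by positivity) (by positivity)]
  linarith

lemma Zmax_le {n m : ℕ} (h : ∀ (G : SimpleGraph (Fin n)) (y : Fin n → ℝ), ec G = m → Feas G y →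
    ∃ (K : SimpleGraph (Fin n)) (y' : Fin n → ℝ), ec K = m + 1 ∧ Feas K y' ∧
      ∑ p, y p ≤ ∑ p, y' p) : Zmax n m ≤ Zmax n (m + 1) := by
  have h0 : 0 ≤ Zmax n (m + 1) := Real.sSup_nonneg fun z ⟨G, _, e⟩ => e ▸ Zf_nonneg G
  refine Real.sSup_le ?_ h0
  rintro z ⟨G, hG, rfl⟩
  refine le_of_forall_lt_imp_le_of_dense fun t ht => ?_
  by_cases c : 0 < t
  · obtain ⟨y, y1, y2⟩ := strong c ht
    obtain ⟨K, y', k1, k2, k3⟩ := h G y hG y1
    refine y2.trans (k3.trans ((weak k2).trans (le_csSup (Set.Finite.bddAbove ?_) ⟨K, k1, rfl⟩)))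
    exact (Set.finite_range Zf).subset fun z ⟨G, _, e⟩ => ⟨G, e⟩
  · exact (not_lt.1 c).trans h0

end Pool.Agent.P.MP_e9161b_co
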