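import Pool.Agent.P.MP_e9161b_co.Cases

/-! One more edge up to density `1 / (log log n) ^ 2`. -/

namespace Pool.Agent.P.MP_e9161b_co

open Finset SimpleGraph

variable {V : Type} [Fintype V]

lemma ar_room {n k m : ℕ} (h1 : 2 * k ≤ n) (h2 : 2 ≤ n) (h3 : 32 * (m + 1) ≤ n ^ 2) :
    2 * (m + 1) ≤ (n - k) * (n - 1) := by
  have d1 : n ≤ 2 * (n - k) := by omega
  have d2 : n ≤ 2 * (n - 1) := by omega
  have d3 := Nat.mul_le_mul d1 d2
  nlinarith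

lemma ar_price {n m k Z c i J : ℝ} (k0 : 0 < k) (c0 : 0 < c) (i0 : 0 ≤ i) (J0 : 0 ≤ J)
    (h1 : c * (256 * m) = Z) (h2 : k < Z * (2 * (8 * (i + 1)))) (h3 : m ≤ 4 * (k * k))
    (h4 : 2 ^ 20 * J * k ≤ n) : 64 * J ≤ (i + 1) * (c * n) := by
  have c2 : 1 ≤ c * (2048 * (8 * (i + 1)) * k) := by
    have d2 : k * 1 ≤ k * (c * (2048 * (8 * (i + 1)) * k)) := by
      nlinarith [mul_le_mul_of_nonneg_left h3 (by positivity : 0 ≤ c * (i + 1))]
    exact le_of_mul_le_mul_left d2 k0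
  have d3 := mul_le_mul_of_nonneg_left h4 (by positivity : 0 ≤ c * (i + 1))
  have d4 := mul_le_mul_of_nonneg_left c2 (by positivity : (0 : ℝ) ≤ 64 * J)
  nlinarith

lemma ar_heavy {n P Q j : ℕ} (q1 : 2 ^ 45 ≤ Q) (q2 : Q ^ 5 ≤ P) (q3 : P ^ 8 ≤ n)
    (q5 : j ≤ 8 * Q) : 2 * (4 * P ^ 2) * (12000 * (j * j)) ≤ n := by
  have d2 : j * j ≤ 64 * (Q * Q) := by nlinarith
  have d3 : 2 ^ 45 * (Q * Q) ≤ Q ^ 5 := by
    have e1 : 2 ^ 45 ≤ Q ^ 3 := q1.trans (Nat.le_self_pow (by norm_num) Q)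
    calc 2 ^ 45 * (Q * Q) ≤ Q ^ 3 * (Q * Q) := Nat.mul_le_mul_right _ e1
      _ = Q ^ 5 := by ring
  have q6 : Q ≤ Q ^ 5 := Nat.le_self_pow (by norm_num) Q
  have d4 : P ^ 2 * P ≤ P ^ 8 := by
    rw [← pow_succ]
    exact Nat.pow_le_pow_right (by omega) (by norm_num)
  have d5 := Nat.mul_le_mul_left (P ^ 2) (show 96000 * (j * j) ≤ P by omega)
  calc 2 * (4 * P ^ 2) * (12000 * (j * j)) = P ^ 2 * (96000 * (j * j)) := by ring
    _ ≤ n := d5.trans (d4.trans q3)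

lemma ar_heavy2 {n k j Z W : ℝ} (j0 : 0 < j) (h1 : W * (12000 * (j * j)) ≤ n)
    (h2 : n ≤ 6000 * j * k) (h3 : k < Z * (2 * j)) : W < Z := by
  have d8 : n < Z * (12000 * (j * j)) := by nlinarith
  exact lt_of_mul_lt_mul_right (h1.trans_lt d8) (by positivity)

lemma ar_N {n m j N : ℕ} (j1 : 1 ≤ j) (h1 : N * (2 ^ 15 * j) ≤ n) (h2 : n ^ 2 < (3000 * j) ^ 2 * m) :
    8 * N ≤ n ∧ N * N ≤ m := by
  refine ⟨by nlinarith, ?_⟩
  have e1 := Nat.mul_le_mul h1 h1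
  have e2 : N * N * (3000 * j) ^ 2 ≤ m * (3000 * j) ^ 2 := by
    nlinarith [Nat.zero_le (N * N * (j * j))]
  exact Nat.le_of_mul_le_mul_right e2 (by positivity)

lemma ar_t {i J t : ℝ} {x : ℝ} (J0 : 0 < J) (x0 : 0 < x) (h1 : i + 1 ≤ 8 * J * t)
    (h2 : 64 * J ≤ (i + 1) * x) : 8 ≤ x * t := by
  have d2 := mul_le_mul_of_nonneg_right h1 x0.le
  have d3 : 8 * J * 8 ≤ 8 * J * (x * t) := by nlinarith
  exact le_of_mul_le_mul_left d3 (by linarith)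

lemma ar_mid {i J a : ℕ} (h3 : i + 1 ≤ 2 ^ J) (h4 : 5 * J ≤ i) (h5 : 45 ≤ J)
    (h : a ≤ 2 * ((2 ^ J) ^ 4 * ((i + 1) / (8 * J) + 1) +
      (3 * ((2 ^ J) ^ 4 + 1)) ^ ((i + 1) / (8 * J) + 1) *
        (3 * ((2 ^ J) ^ 4 + 1)) ^ ((i + 1) / (8 * J) + 1))) : 4 * a < (2 ^ i) ^ 8 := by
  have t1 : (i + 1) / (8 * J) * (8 * J) ≤ i + 1 := Nat.div_mul_le_self _ _
  generalize (i + 1) / (8 * J) = t at h t1
  have t3 : J * 5 * (t + 1) ≤ i * 2 := by nlinarith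
  have t4 : t + 1 ≤ 2 ^ J := by nlinarith
  have q1 : 2 ^ 45 ≤ 2 ^ J := Nat.pow_le_pow_right two_pos h5
  have q2 : (2 ^ J) ^ 5 ≤ 2 ^ i := by
    rw [← pow_mul]
    exact Nat.pow_le_pow_right two_pos (by omega)
  have a2 : ((2 ^ J) ^ 5) ^ (t + 1) ≤ (2 ^ i) ^ 2 := by
    rw [← pow_mul, ← pow_mul, ← pow_mul]
    exact Nat.pow_le_pow_right two_pos (by rw [← mul_assoc]; exact t3)
  generalize 2 ^ J = Q at *
  generalize 2 ^ i = P at *
  have q6 : Q ≤ Q ^ 5 := Nat.le_self_pow (by norm_num) Q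
  have d1 : 3 * (Q ^ 4 + 1) ≤ Q ^ 5 := by
    have : 1 ≤ Q ^ 4 := Nat.one_le_pow _ _ (by omega)
    have := Nat.mul_le_mul_left (Q ^ 4) (show 6 ≤ Q by omega)
    rw [pow_succ Q 4]
    omega
  have a1 := (Nat.pow_le_pow_left d1 (t + 1)).trans a2
  have a3 : Q ^ 4 * (t + 1) ≤ P :=
    le_trans (Nat.mul_le_mul_left _ t4) (by rw [← pow_succ]; exact q2)
  have a4 := Nat.mul_le_mul a1 a1
  have a5 : P ≤ P ^ 2 * P ^ 2 := by
    rw [← pow_add]
    exact Nat.le_self_pow (by norm_num) P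
  have a6 : P ^ 2 * P ^ 2 * P ≤ P ^ 8 := by
    rw [← pow_add, ← pow_succ]
    exact Nat.pow_le_pow_right (by omega) (by norm_num)
  have a8 := Nat.mul_le_mul_left (P ^ 2 * P ^ 2) (show 17 ≤ P by omega)
  omega

lemma classes (G : SimpleGraph V) (y : V → ℝ) (c Δ : ℝ) (n0 : 0 < Fintype.card V)
    (m0 : 0 < ec G) :
    (∃ U : Finset V, Fintype.card V ≤ 4 * U.card ∧
      ∀ u ∈ U, y u ≤ c * dg G u ∧ (dg G u : ℝ) ≤ 8 * ec G / Fintype.card V) ∨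
    (∃ L : Finset V, Fintype.card V ≤ 4 * L.card ∧ ∀ u ∈ L, c * dg G u ≤ y u ∧ dg G u ≤ Δ) ∨
    ∃ A : Finset V, Fintype.card V ≤ 4 * A.card ∧ ∀ u ∈ A, c * dg G u ≤ y u ∧ Δ ≤ dg G u := by
  classical
  have hsum : ∑ v, (dg G v : ℝ) = 2 * ec G := by exact_mod_cast handshake G
  have n0' : (0 : ℝ) < Fintype.card V := by exact_mod_cast n0
  have m0' : (0 : ℝ) < ec G := by exact_mod_cast m0
  let U0 := univ.filter fun u => 8 * (ec G : ℝ) / Fintype.card V ≤ dg G u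
  let U := univ.filter fun u => y u ≤ c * dg G u ∧ (dg G u : ℝ) ≤ 8 * ec G / Fintype.card V
  let L := univ.filter fun u => c * dg G u ≤ y u ∧ (dg G u : ℝ) ≤ Δ
  let A := univ.filter fun u => c * dg G u ≤ y u ∧ Δ ≤ dg G u
  have u0 : 4 * U0.card ≤ Fintype.card V := by
    have := markov (f := fun u => (dg G u : ℝ)) (fun u => Nat.cast_nonneg _) _ U0
      fun u hu => (mem_filter.1 hu).2
    rw [hsum, ← mul_div_assoc, div_le_iff₀ n0'] at this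
    have e : 4 * (U0.card : ℝ) ≤ Fintype.card V := by nlinarith
    exact_mod_cast e
  have u1 : Fintype.card V ≤ U0.card + U.card + L.card + A.card := by
    rw [← Finset.card_univ]
    refine (card_le_card (t := U0 ∪ U ∪ L ∪ A) fun u _ => ?_).trans ((card_union_le _ _).trans
      (Nat.add_le_add_right ((card_union_le _ _).trans
        (Nat.add_le_add_right (card_union_le _ _) _)) _))
    simp only [U0, U, L, A, mem_union, mem_filter, mem_univ, true_and]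
    rcases le_total (y u) (c * dg G u) with a | a
    · rcases le_total (8 * (ec G : ℝ) / Fintype.card V) (dg G u) with b | b
      · exact Or.inl (Or.inl (Or.inl b))
      · exact Or.inl (Or.inl (Or.inr ⟨a, b⟩))
    · rcases le_total Δ (dg G u) with b | b
      · exact Or.inr ⟨a, b⟩
      · exact Or.inl (Or.inr ⟨a, b⟩)
  by_cases hU : Fintype.card V ≤ 4 * U.card
  · exact Or.inl ⟨U, hU, fun u hu => (mem_filter.1 hu).2⟩
  by_cases hL : Fintype.card V ≤ 4 * L.card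
  · exact Or.inr (Or.inl ⟨L, hL, fun u hu => (mem_filter.1 hu).2⟩)
  exact Or.inr (Or.inr ⟨A, by omega, fun u hu => (mem_filter.1 hu).2⟩)

lemma step2 {G : SimpleGraph V} {y : V → ℝ} (h : Feas G y) {i J : ℕ}
    (h1 : 256 ^ i ≤ Fintype.card V) (h2 : Fintype.card V ≤ 256 ^ (i + 1)) (h3 : i + 1 ≤ 2 ^ J)
    (h4 : 5 * J ≤ i) (h5 : 45 ≤ J) (hm : (2 ^ 20 * J) ^ 2 * ec G ≤ Fintype.card V ^ 2) :
    ∃ (K : SimpleGraph V) (y' : V → ℝ), ec K = ec G + 1 ∧ Feas K y' ∧ ∑ p, y p ≤ ∑ p, y' p := by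
  classical
  obtain ⟨Q, hQ⟩ : ∃ Q, Q = 2 ^ J := ⟨_, rfl⟩
  obtain ⟨P, hP⟩ : ∃ P, P = 2 ^ i := ⟨_, rfl⟩
  obtain ⟨j, hj⟩ : ∃ j, j = 8 * (i + 1) := ⟨_, rfl⟩
  have q1 : 2 ^ 45 ≤ Q := hQ ▸ Nat.pow_le_pow_right two_pos h5
  have q2 : Q ^ 5 ≤ P := by
    rw [hQ, hP, ← pow_mul]
    exact Nat.pow_le_pow_right two_pos (by omega)
  have q3 : P ^ 8 ≤ Fintype.card V := by
    rw [hP, ← pow_mul, mul_comm, pow_mul]
    exact h1
  have q4 : Fintype.card V ≤ 2 ^ j := by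
    rw [hj, pow_mul]
    exact h2
  have q5 : j ≤ 8 * Q := by omega
  have q6 : Q ≤ Q ^ 5 := Nat.le_self_pow (by norm_num) Q
  have q7 : P ≤ P ^ 8 := Nat.le_self_pow (by norm_num) P
  have q8 : Q ^ 4 ≤ Q ^ 5 := Nat.pow_le_pow_right (by omega) (by norm_num)
  have j1 : 1 ≤ j := by omega
  have n2 : 48 ≤ Fintype.card V := by omega
  have q9 : Q ^ 4 ≤ Fintype.card V := by omega
  clear h1 h2 q6 q7 q8
  by_cases hi : ∃ u, dg G u = 0
  · obtain ⟨u, hu⟩ := hi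
    obtain ⟨v, hv⟩ := Fintype.exists_ne_of_one_lt_card (by omega) u
    obtain ⟨K, k1, k2⟩ := step_isolated h hu hv.symm
    exact ⟨K, y, k1, k2, le_rfl⟩
  by_cases hs : (3000 * j) ^ 2 * ec G ≤ Fintype.card V ^ 2
  · exact step h j1 q4 (by omega) hs
  have hd : ∀ v, 1 ≤ dg G v := fun v => Nat.one_le_iff_ne_zero.2 fun e => hi ⟨v, e⟩
  obtain ⟨n, hn⟩ : ∃ n, n = Fintype.card V := ⟨_, rfl⟩
  obtain ⟨m, hmm⟩ : ∃ m, m = ec G := ⟨_, rfl⟩
  rw [← hn, ← hmm] at hs hm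
  rw [← hn] at q3 n2 q9
  push Not at hs
  have m1 : 2 ^ 40 * m ≤ n ^ 2 := by
    refine le_trans (Nat.mul_le_mul_right _ ?_) hm
    exact le_trans (by norm_num) (Nat.pow_le_pow_left (Nat.mul_le_mul_left _ h5) 2)
  have m0 : 1 ≤ m := Nat.pos_of_ne_zero fun e => by simp [e] at hs
  have k1 := Nat.sqrt_le m
  have k2 : m < (Nat.sqrt m + 1) * (Nat.sqrt m + 1) := Nat.lt_succ_sqrt m
  have k3 : 1 ≤ Nat.sqrt m := Nat.sqrt_pos.2 m0
  generalize Nat.sqrt m = k at k1 k2 k3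
  have k4 : 2 ^ 20 * J * k ≤ n := by
    rw [← Nat.mul_self_le_mul_self_iff]
    calc 2 ^ 20 * J * k * (2 ^ 20 * J * k) = (2 ^ 20 * J) ^ 2 * (k * k) := by ring
      _ ≤ (2 ^ 20 * J) ^ 2 * m := Nat.mul_le_mul_left _ k1
      _ ≤ n * n := by rw [← pow_two n]; exact hm
  have k5 : 2 * k ≤ n := le_trans (Nat.mul_le_mul_right _ (by omega)) k4
  have k6 : m ≤ 4 * (k * k) := by
    have e : k + 1 ≤ 2 * k := by omega
    calc m ≤ 2 * k * (2 * k) := k2.le.trans (Nat.mul_le_mul e e)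
      _ = 4 * (k * k) := by ring
  have k7 : n ≤ 6000 * j * k := by
    rw [← Nat.mul_self_le_mul_self_iff]
    calc n * n = n ^ 2 := by ring
      _ ≤ (3000 * j) ^ 2 * m := hs.le
      _ ≤ (3000 * j) ^ 2 * (4 * (k * k)) := Nat.mul_le_mul_left _ k6
      _ = 6000 * j * k * (6000 * j * k) := by ring
  have room : 32 * (m + 1) ≤ n ^ 2 := by omega
  by_cases hZ : ∑ p, y p ≤ k / (2 * j)
  · obtain ⟨K, y', c1, c2, c3⟩ := step_erdos (V := V) (k := k) (M := m + 1) j1 q4 (by omega)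
      (by omega) (hn ▸ ar_room k5 (by omega) room)
    exact ⟨K, y', hmm ▸ c1, c2, c3 ▸ hZ⟩
  push Not at hZ
  obtain ⟨Z, hZd⟩ : ∃ Z, Z = ∑ p, y p := ⟨_, rfl⟩
  rw [← hZd] at hZ
  have n0 : (0 : ℝ) < n := by positivity
  have m0' : (0 : ℝ) < m := by positivity
  have j0 : (0 : ℝ) < j := by positivity
  have k0 : (0 : ℝ) < k := by positivity
  have Z0 : 0 < Z := lt_trans (by positivity) hZ
  have Z1 : (k : ℝ) < Z * (2 * j) := (div_lt_iff₀ (by positivity)).1 hZ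
  obtain ⟨c, hc⟩ : ∃ c, c = Z / (256 * m) := ⟨_, rfl⟩
  have c0 : 0 < c := by rw [hc]; positivity
  have c1 : c * (256 * m) = Z := by rw [hc]; exact div_mul_cancel₀ _ (by positivity)
  have c3 : 64 * (J : ℝ) ≤ (i + 1) * (c * n) :=
    ar_price k0 c0 (Nat.cast_nonneg i) (Nat.cast_nonneg J) c1
      (by rw [hj] at Z1; exact_mod_cast Z1) (by exact_mod_cast k6) (by exact_mod_cast k4)
  have J1 : (45 : ℝ) ≤ J := by exact_mod_cast h5
  rcases classes G y c (n / (Q : ℝ) ^ 4) (by omega) (by omega) with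
    ⟨U, u1, u2⟩ | ⟨L, u1, u2⟩ | ⟨A, u1, u2⟩
  · obtain ⟨v, v1, v2⟩ := exists_good h hd (s := i + 1) (by omega) (by
      rw [← hZd, ← hmm, ← hn, ← hc]
      push_cast
      linarith) (by
      rw [← hZd]
      have d1 : 4 * P ^ 2 = 4 ^ (i + 1) := by
        rw [hP, ← pow_mul, mul_comm i, pow_mul, pow_succ 4 i, mul_comm]
        norm_num
      have d5 := ar_heavy q1 q2 q3 q5
      rw [d1] at d5
      exact ar_heavy2 (n := n) j0 (by exact_mod_cast d5) (by exact_mod_cast k7) Z1)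
    rw [← hZd, ← hmm, ← hn, ← hc] at v2
    rw [← hmm, ← hn] at u2
    refine case_cheap h hd c0 u2 u1 (by omega) (by positivity) ?_ v1 v2
    have d1 : (2 : ℝ) ^ 40 * m ≤ n ^ 2 := by exact_mod_cast m1
    rw [← hn, div_le_div_iff₀ n0 (by norm_num), ← pow_two]
    linarith
  · have d1 : n / (2 ^ 15 * j) * (2 ^ 15 * j) ≤ n := Nat.div_mul_le_self _ _
    have d2 : n < (2 ^ 15 * j) * (n / (2 ^ 15 * j) + 1) := Nat.lt_mul_div_succ _ (by positivity)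
    generalize n / (2 ^ 15 * j) = N at d1 d2
    obtain ⟨d3, d4⟩ := ar_N j1 d1 hs
    refine case_low h hd c0 u2 u1 (by omega) (N := N) j1 q4 (hn ▸ d3) (hmm ▸ d4)
      (by rw [← hn, ← hmm]; exact room) ?_
    rw [← hZd, ← hmm, ← hn, hc]
    refine gain_ok (k := k) (by exact_mod_cast j1) (by exact_mod_cast q1) (by exact_mod_cast q5)
      (by exact_mod_cast q9) k0 (by exact_mod_cast (by omega : k ≤ n)) m0'
      (by exact_mod_cast k6) hZ ?_ ?_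
    · rw [le_div_iff₀ (by positivity)]
      exact_mod_cast d1
    · rw [div_lt_iff₀' (by positivity)]
      exact_mod_cast d2
  · have t2 : i + 1 < 8 * J * ((i + 1) / (8 * J) + 1) := Nat.lt_mul_div_succ _ (by omega)
    have a1 := few_mid h (A := A) (s := Q ^ 4) (t := (i + 1) / (8 * J) + 1) c0 (by positivity)
      (hn ▸ ar_t (by linarith) (mul_pos c0 n0) (by exact_mod_cast t2.le) c3)
      (fun u hu => by
        rw [← hn, Nat.cast_pow]
        exact u2 u hu) u1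
    rw [hQ] at a1
    have a2 := ar_mid h3 h4 h5 a1
    rw [← hP] at a2
    omega

end Pool.Agent.P.MP_e9161b_co
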