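import Pool.Agent.P.MP_e9161b_co.Main

/-! Upper bounds of Ramsey type. -/

namespace Pool.Agent.P.MP_e9161b_co

open Finset SimpleGraph

variable {V : Type}

lemma ramsey (G : SimpleGraph V) : ∀ (k a t : ℕ), a + t = k → ∀ B : Finset V,
    (∀ S ⊆ B, G.IsClique (S : Set V) → S.card ≤ a) →
    (∀ S ⊆ B, G.IsIndepSet (S : Set V) → S.card ≤ t) → B.card < (a + t).choose t := by
  classical
  intro k
  induction k with
  | zero =>
    intro a t h B h1 _
    rcases B.eq_empty_or_nonempty with rfl | ⟨v, hv⟩
    · exact Nat.choose_pos (by omega)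
    · have := h1 {v} (by simpa using hv) (by simp)
      rw [card_singleton] at this
      omega
  | succ k ih =>
    intro a t h B h1 h2
    rcases B.eq_empty_or_nonempty with rfl | ⟨v, hv⟩
    · exact Nat.choose_pos (by omega)
    have a1 := h1 {v} (by simpa using hv) (by simp)
    have a2 := h2 {v} (by simpa using hv) (by simp)
    rw [card_singleton] at a1 a2
    obtain ⟨a, rfl⟩ : ∃ b, a = b + 1 := ⟨a - 1, by omega⟩
    obtain ⟨t, rfl⟩ : ∃ b, t = b + 1 := ⟨t - 1, by omega⟩
    have b1 := ih a (t + 1) (by omega) ((B.erase v).filter (G.Adj v)) (fun S hS hc => by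
      have c1 : v ∉ S := fun c => by simpa using hS c
      have c2 := h1 (insert v S) (insert_subset hv
        (hS.trans ((filter_subset _ _).trans (erase_subset _ _)))) (by
          rw [coe_insert]
          exact hc.insert fun u hu _ => (mem_filter.1 (hS hu)).2)
      rw [card_insert_of_notMem c1] at c2
      omega) fun S hS => h2 S (hS.trans ((filter_subset _ _).trans (erase_subset _ _)))
    have b2 := ih (a + 1) t (by omega) ((B.erase v).filter fun u => ¬G.Adj v u)
      (fun S hS => h1 S (hS.trans ((filter_subset _ _).trans (erase_subset _ _)))) fun S hS hc => by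
      have c1 : v ∉ S := fun c => by simpa using hS c
      have c2 := h2 (insert v S) (insert_subset hv
        (hS.trans ((filter_subset _ _).trans (erase_subset _ _)))) (by
          rw [coe_insert]
          refine Set.Pairwise.insert hc fun u hu _ => ?_
          have := (mem_filter.1 (hS hu)).2
          exact ⟨this, fun x => this x.symm⟩)
      rw [card_insert_of_notMem c1] at c2
      omega
    have b3 := card_filter_add_card_filter_not (s := B.erase v) (G.Adj v)
    have b4 := card_erase_add_one hv
    have b5 : (a + 1 + (t + 1)).choose (t + 1) =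
        (a + 1 + t).choose t + (a + (t + 1)).choose (t + 1) := by
      rw [show a + (t + 1) = a + 1 + t by omega]
      exact Nat.choose_succ_succ' _ _
    omega

lemma choose_le {a t s : ℕ} (h : a + t ≤ s * t) : (a + t).choose t ≤ (3 * s) ^ t := by
  have h1 : (((s * t).choose t : ℕ) : ℝ) ≤ ((s * t : ℕ) : ℝ) ^ t / t.factorial :=
    Nat.choose_le_pow_div t (s * t)
  have h2 := Real.pow_div_factorial_le_exp (t : ℝ) (Nat.cast_nonneg t) t
  have h3 : Real.exp t ≤ 3 ^ t := by
    rw [← Real.exp_one_pow]
    exact pow_le_pow_left₀ (Real.exp_pos 1).le (by linarith [Real.exp_one_lt_d9]) t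
  have h4 : (((s * t).choose t : ℕ) : ℝ) ≤ (3 * s) ^ t := by
    refine h1.trans ?_
    rw [Nat.cast_mul, mul_pow, mul_div_assoc, mul_pow, mul_comm]
    exact mul_le_mul_of_nonneg_right (h2.trans h3) (by positivity)
  exact (Nat.choose_le_choose t h).trans (by exact_mod_cast h4)

lemma small_subsets (I : Finset V) {a : ℕ} (h : I.card ≤ a) (t : ℕ) :
    (I.powerset.filter fun T => T.card ≤ t).card ≤ (a + t).choose t := by
  classical
  induction t with
  | zero =>
    rw [Nat.choose_zero_right]
    exact card_le_one.2 fun x hx y hy => by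
      rw [card_eq_zero.1 (Nat.le_zero.1 (mem_filter.1 hx).2),
        card_eq_zero.1 (Nat.le_zero.1 (mem_filter.1 hy).2)]
  | succ t ih =>
    have h1 : (I.powerset.filter fun T => T.card ≤ t + 1) ⊆
        (I.powerset.filter fun T => T.card ≤ t) ∪ powersetCard (t + 1) I := by
      intro T hT
      obtain ⟨c1, c2⟩ := mem_filter.1 hT
      by_cases c : T.card ≤ t
      · exact mem_union_left _ (mem_filter.2 ⟨c1, c⟩)
      · exact mem_union_right _ (mem_powersetCard.2 ⟨mem_powerset.1 c1, by omega⟩)
    have h2 := (card_le_card h1).trans (card_union_le _ _)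
    rw [card_powersetCard] at h2
    have h3 : I.card.choose (t + 1) ≤ (a + t).choose (t + 1) := Nat.choose_le_choose _ (by omega)
    have h4 : (a + (t + 1)).choose (t + 1) = (a + t).choose t + (a + t).choose (t + 1) :=
      Nat.choose_succ_succ' _ _
    omega

/-- A weighted form of the theorem of Erdős and Szemerédi. -/
lemma es [Fintype V] (G : SimpleGraph V) (A : Finset V) (a t : ℕ)
    (h1 : ∀ S ⊆ A, Homog G S → S.card ≤ a)
    (h2 : ∀ S ⊆ A, G.IsIndepSet (S : Set V) → 2 * ∑ u ∈ S, dg G u ≤ A.card * t) :
    A.card ≤ 2 * (a + (a + t).choose t * (a + t).choose t) := by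
  classical
  obtain ⟨I, hI, hm⟩ := (A.powerset.filter fun S : Finset V =>
    G.IsIndepSet (S : Set V)).exists_max_image card ⟨∅, by simp⟩
  obtain ⟨i1, i2⟩ := mem_filter.1 hI
  rw [mem_powerset] at i1
  have i3 := h1 I i1 (Or.inl i2)
  let tr : V → Finset V := fun x => I.filter (G.Adj x)
  have s1 : ∑ x ∈ A, (tr x).card ≤ ∑ u ∈ I, dg G u := by
    simp only [tr, card_filter]
    rw [Finset.sum_comm]
    refine Finset.sum_le_sum fun u _ => ?_
    rw [← card_filter]
    exact le_dg fun x hx => (mem_filter.1 hx).2.symm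
  let B := A.filter fun x => ¬(tr x).card ≤ t
  have s2 : B.card * (t + 1) ≤ ∑ x ∈ A, (tr x).card := by
    rw [← smul_eq_mul]
    exact (Finset.card_nsmul_le_sum _ _ _ fun x hx => not_le.1 (mem_filter.1 hx).2).trans
      (Finset.sum_le_sum_of_subset (filter_subset _ _))
  have s3 : 2 * B.card ≤ A.card := by
    have := h2 I i1 i2
    by_contra c
    nlinarith [not_le.1 c]
  let C := A.filter fun x => (tr x).card ≤ t
  have s4 : C.card + B.card = A.card :=
    card_filter_add_card_filter_not (fun x => (tr x).card ≤ t)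
  have s5 : (C \ I).card ≤ (a + t).choose t * (I.powerset.filter fun T => T.card ≤ t).card := by
    refine card_le_mul_card_image_of_maps_to (f := tr) (fun x hx => ?_) _ fun T hT => ?_
    · have c : x ∈ A.filter fun x => (tr x).card ≤ t := (mem_sdiff.1 hx).1
      exact mem_filter.2 ⟨mem_powerset.2 (filter_subset _ _), (mem_filter.1 c).2⟩
    refine (ramsey G _ a t rfl ((C \ I).filter fun x => tr x = T)
      (fun S hS hc => h1 S ?_ (Or.inr hc)) fun S hS hc => ?_).le
    · exact hS.trans ((filter_subset _ _).trans (sdiff_subset.trans (filter_subset _ _)))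
    · obtain ⟨t1, t2⟩ := mem_filter.1 hT
      rw [mem_powerset] at t1
      have c1 : ∀ x ∈ S, x ∈ A ∧ x ∉ I ∧ tr x = T := fun x hx => by
        obtain ⟨d1, d2⟩ := mem_filter.1 (hS hx)
        exact ⟨(mem_filter.1 (mem_sdiff.1 d1).1).1, (mem_sdiff.1 d1).2, d2⟩
      have c2 : ∀ x ∈ S, ∀ u ∈ I \ T, ¬G.Adj x u := fun x hx u hu ha =>
        (mem_sdiff.1 hu).2 ((c1 x hx).2.2 ▸ mem_filter.2 ⟨(mem_sdiff.1 hu).1, ha⟩)
      have c3 := hm (I \ T ∪ S) (mem_filter.2 ⟨mem_powerset.2
        (union_subset (sdiff_subset.trans i1) fun x hx => (c1 x hx).1), fun p hp q hq hpq => by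
          rcases mem_union.1 hp with hp | hp <;> rcases mem_union.1 hq with hq | hq
          · exact i2 (mem_sdiff.1 hp).1 (mem_sdiff.1 hq).1 hpq
          · exact fun x => c2 q hq p hp x.symm
          · exact c2 p hp q hq
          · exact hc hp hq hpq⟩)
      rw [card_union_of_disjoint (disjoint_left.2 fun x hx hx' =>
        (c1 x hx').2.1 (mem_sdiff.1 hx).1), card_sdiff_of_subset t1] at c3
      have c4 := card_le_card t1
      omega
  have s6 := Nat.mul_le_mul_left ((a + t).choose t) (small_subsets I i3 t)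
  have s7 := le_card_sdiff I C
  omega

end Pool.Agent.P.MP_e9161b_co
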