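import Pool.Agent.P.MP_e9161b_co.Ramsey

/-! Two exchange arguments. -/

namespace Pool.Agent.P.MP_e9161b_co

open Finset SimpleGraph

variable {V : Type} [Fintype V]

lemma step_gadget {G : SimpleGraph V} {y : V → ℝ} (h : Feas G y) {X A : Finset V} (hA : A ⊆ X)
    {η : ℝ} (η0 : 0 ≤ η)
    (hs : ∀ S, Disjoint S X → G.IsIndepSet (S : Set V) → ∑ p ∈ S, y p ≤ 1 - η) {j : ℕ}
    (hj : 1 ≤ j) (hn : Fintype.card V ≤ 2 ^ j) (h1 : A.card * A.card ≤ ∑ x ∈ X, dg G x)
    (h2 : 2 * (ec G + 1) ≤ (X.card - A.card) * (Fintype.card V - 1))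
    (h3 : ∑ x ∈ X, y x ≤ A.card * (η / (2 * j))) :
    ∃ (K : SimpleGraph V) (y' : V → ℝ), ec K = ec G + 1 ∧ Feas K y' ∧ ∑ p, y p ≤ ∑ p, y' p := by
  classical
  obtain ⟨H, hH⟩ := erdos hj hn
  have hj' : (0 : ℝ) < 2 * j := by positivity
  have η1 : η ≤ 1 := by simpa using hs ∅ (by simp) (by simp)
  let y' : V → ℝ := fun p => if p ∈ A then η / (2 * j) else if p ∈ X then 0 else y p
  have e1 : 2 * ec (del H Aᶜ) ≤ A.card * A.card := by
    have c := handshake (del H Aᶜ)
    rw [← Finset.sum_add_sum_compl A] at c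
    have c1 : ∑ x ∈ Aᶜ, dg (del H Aᶜ) x = 0 := Finset.sum_eq_zero fun x hx =>
      Nat.le_zero.1 (dg_le (A := ∅) fun u hu => absurd hx hu.2.1)
    have c2 : ∑ x ∈ A, dg (del H Aᶜ) x ≤ A.card • A.card :=
      Finset.sum_le_card_nsmul _ _ _ fun x _ => dg_le fun u hu => by simpa using hu.2.2
    rw [smul_eq_mul] at c2
    omega
  have e2 : ec (del G X ⊔ del H Aᶜ) ≤ ec (del G X) + ec (del H Aᶜ) := by
    unfold ec
    rw [edgeSet_sup]
    exact Set.ncard_union_le _ _
  have e3 := del_le_ec G X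
  have split : ∀ S : Finset V, ∑ p ∈ S, y' p = ∑ p ∈ S \ X, y p + (S ∩ A).card * (η / (2 * j)) := by
    intro S
    rw [← Finset.sum_sdiff (inter_subset_left (s₂ := A)), sdiff_inter_self_left]
    congr 1
    · symm
      refine Finset.sum_subset_zero_on_sdiff (sdiff_subset_sdiff Subset.rfl hA)
        (fun p hp => ?_) fun p hp => ?_
      · have c1 := (mem_sdiff.1 (mem_sdiff.1 hp).1)
        have c2 : p ∈ X := by
          by_contra c
          exact (mem_sdiff.1 hp).2 (mem_sdiff.2 ⟨c1.1, c⟩)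
        simp only [y', if_neg c1.2, if_pos c2]
      · have c1 := (mem_sdiff.1 hp).2
        simp only [y', if_neg fun c => c1 (hA c), if_neg c1]
    · rw [Finset.sum_congr rfl (g := fun _ => η / (2 * j)) fun p hp => if_pos (mem_inter.1 hp).2,
        Finset.sum_const, nsmul_eq_mul]
  refine (realize (del G X ⊔ del H Aᶜ) (X \ A) (fun p q hpq hp => ?_) (y := y') (fun p => ?_)
    (fun p hp => ?_) (fun S hS hh => ?_) (M := ec G + 1) (by omega)
    (by rw [card_sdiff_of_subset hA]; omega)).imp fun K hK => ⟨y', hK.1, hK.2, ?_⟩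
  · exact hpq.elim (fun c => c.2.1 (mem_sdiff.1 hp).1) fun c =>
      c.2.1 (mem_compl.2 (mem_sdiff.1 hp).2)
  · have := h.1 p
    simp only [y']
    split_ifs <;> positivity
  · simp only [y', if_neg (mem_sdiff.1 hp).2, if_pos (mem_sdiff.1 hp).1]
  · have c1 : (S ∩ A).card ≤ 2 * j := by
      refine hH _ ((hh.mono inter_subset_left).imp (fun x p hp q hq hpq ha => x hp hq hpq ?_)
        fun x p hp q hq hpq => (x hp hq hpq).elim (fun c => ?_) fun c => c.1)
      · exact Or.inr ⟨ha, fun c => mem_compl.1 c (mem_inter.1 hp).2,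
          fun c => mem_compl.1 c (mem_inter.1 hq).2⟩
      · exact absurd (hA (mem_inter.1 hp).2) c.2.1
    have c2 : ((S ∩ A).card : ℝ) * (η / (2 * j)) ≤ η := by
      rw [← mul_div_assoc, div_le_iff₀ hj', mul_comm]
      exact mul_le_mul_of_nonneg_left (by exact_mod_cast c1) η0
    rw [split]
    rcases hh with hh | hh
    · have := hs (S \ X) sdiff_disjoint fun p hp q hq hpq ha => hh (mem_sdiff.1 hp).1
        (mem_sdiff.1 hq).1 hpq (Or.inl ⟨ha, (mem_sdiff.1 hp).2, (mem_sdiff.1 hq).2⟩)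
      linarith
    · rcases (S ∩ A).eq_empty_or_nonempty with c | ⟨t, ht⟩
      · rw [c, card_empty, Nat.cast_zero, zero_mul, add_zero]
        refine h.2 _ (Or.inr fun p hp q hq hpq =>
          (hh (mem_sdiff.1 hp).1 (mem_sdiff.1 hq).1 hpq).elim (fun c => c.1) fun c => ?_)
        exact absurd (mem_compl.2 fun d => (mem_sdiff.1 hp).2 (hA d)) c.2.1
      · have c3 : S \ X = ∅ := eq_empty_of_forall_notMem fun p hp => by
          have d1 := (mem_sdiff.1 hp).2
          have d2 := hA (mem_inter.1 ht).2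
          rcases hh (mem_sdiff.1 hp).1 (mem_inter.1 ht).1 (fun e => d1 (e ▸ d2)) with c | c
          · exact c.2.2 d2
          · exact c.2.1 (mem_compl.2 fun d => d1 (hA d))
        rw [c3, Finset.sum_empty]
        linarith
  · rw [split univ, univ_inter, ← Finset.sum_sdiff (subset_univ X)]
    linarith

lemma case_low {G : SimpleGraph V} {y : V → ℝ} (h : Feas G y) (hd : ∀ v, 1 ≤ dg G v)
    {L : Finset V} {c Δ : ℝ} (c0 : 0 < c) (hL : ∀ u ∈ L, c * dg G u ≤ y u ∧ (dg G u : ℝ) ≤ Δ)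
    (L4 : Fintype.card V ≤ 4 * L.card) (n2 : 2 ≤ Fintype.card V) {j N : ℕ} (hj : 1 ≤ j)
    (hn : Fintype.card V ≤ 2 ^ j) (h1 : 8 * N ≤ Fintype.card V) (h2 : N * N ≤ ec G)
    (h3 : 32 * (ec G + 1) ≤ Fintype.card V ^ 2)
    (h4 : 3 * Δ + 1 + (∑ p, y p) / ec G * (N * N + Fintype.card V) ≤
      N * (c * Fintype.card V / 16 / (2 * j))) :
    ∃ (K : SimpleGraph V) (y' : V → ℝ), ec K = ec G + 1 ∧ Feas K y' ∧ ∑ p, y p ≤ ∑ p, y' p := by
  classical
  have hs : ∑ v, (dg G v : ℝ) = 2 * ec G := by exact_mod_cast handshake G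
  have hd' : ∀ v, (1 : ℝ) ≤ dg G v := fun v => by exact_mod_cast hd v
  obtain ⟨w, hw⟩ : L.Nonempty := card_pos.1 (by omega)
  have L0 : (0 : ℝ) < L.card := by exact_mod_cast card_pos.2 ⟨w, hw⟩
  have Δ0 : 1 ≤ Δ := (hd' w).trans (hL w hw).2
  have Z0 : 0 < ∑ p, y p := lt_of_lt_of_le (lt_of_lt_of_le (by nlinarith [hd' w]) (hL w hw).1)
    (Finset.single_le_sum (fun p _ => h.1 p) (mem_univ w))
  have m0 : (0 : ℝ) < ec G := by
    have := Finset.single_le_sum (f := fun v => (dg G v : ℝ)) (fun p _ => Nat.cast_nonneg _)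
      (mem_univ w)
    linarith [hd' w]
  set Z := ∑ p, y p with hZ
  set m : ℝ := (ec G : ℝ) with hm
  let b : V → ℝ := fun u => (L.filter (G.Adj u)).card
  let B := univ.filter fun u => y u * L.card / 2 < b u
  have b1 : ∑ u, b u ≤ L.card * Δ := by
    have e : ∑ u, (L.filter (G.Adj u)).card ≤ ∑ x ∈ L, dg G x := by
      simp only [card_filter]
      rw [Finset.sum_comm]
      refine Finset.sum_le_sum fun u _ => ?_
      rw [← card_filter]
      exact le_dg fun x hx => (mem_filter.1 hx).2.symm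
    have e' : ∑ u, b u ≤ ∑ x ∈ L, (dg G x : ℝ) := by
      simp only [b]
      exact_mod_cast e
    rw [← nsmul_eq_mul]
    exact e'.trans (Finset.sum_le_card_nsmul _ _ _ fun x hx => (hL x hx).2)
  have b2 : ∑ u ∈ B, y u ≤ 2 * Δ := by
    have e : ∑ u ∈ B, y u * L.card / 2 ≤ ∑ u, b u :=
      (Finset.sum_le_sum fun u hu => (mem_filter.1 hu).2.le).trans
        (Finset.sum_le_sum_of_subset_of_nonneg (subset_univ _) fun u _ _ => Nat.cast_nonneg _)
    rw [← Finset.sum_div, ← Finset.sum_mul] at e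
    nlinarith
  have l1 : ∑ u ∈ L, y u ≤ Δ + 1 := by
    have e : ∑ u ∈ L, y u ≤ ∑ u ∈ L, y u / (dg G u + 1) * (Δ + 1) := by
      refine Finset.sum_le_sum fun u hu => ?_
      have d : (0 : ℝ) < dg G u + 1 := by positivity
      rw [div_mul_eq_mul_div, le_div_iff₀ d]
      exact mul_le_mul_of_nonneg_left (by linarith [(hL u hu).2]) (h.1 u)
    rw [← Finset.sum_mul] at e
    have e2 : ∑ u ∈ L, y u / (dg G u + 1) ≤ 1 := le_trans
      (Finset.sum_le_sum_of_subset_of_nonneg (subset_univ _) fun u _ _ =>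
        div_nonneg (h.1 u) (by positivity)) h.caro
    nlinarith
  let R := univ.filter fun u => y u ≤ Z / m * dg G u
  have r1 : m ≤ ∑ u ∈ R, (dg G u : ℝ) := by
    have e : ∑ u ∈ Rᶜ, Z / m * (dg G u : ℝ) ≤ Z :=
      (Finset.sum_le_sum fun u hu => (not_le.1 (by simpa [R] using hu)).le).trans
        (Finset.sum_le_sum_of_subset_of_nonneg (subset_univ _) fun u _ _ => h.1 u)
    rw [← Finset.mul_sum, div_mul_eq_mul_div, div_le_iff₀ m0] at e
    have e2 := le_of_mul_le_mul_left e Z0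
    rw [← Finset.sum_add_sum_compl R] at hs
    linarith
  obtain ⟨F, f1, f2, f3⟩ := pick (f := fun x => (dg G x : ℝ)) (B := N * N)
    (D := Fintype.card V) (by positivity) (by positivity) R
    (fun x _ => by exact_mod_cast dg_le (A := univ) fun u _ => mem_univ u)
    (le_trans (by rw [hm]; exact_mod_cast h2) r1)
  have f4 : ∑ u ∈ F, y u ≤ Z / m * (N * N + Fintype.card V) := by
    refine le_trans (Finset.sum_le_sum fun u hu => (mem_filter.1 (f1 hu)).2) ?_
    rw [← Finset.mul_sum]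
    exact mul_le_mul_of_nonneg_left f3 (by positivity)
  obtain ⟨A, a1, a2⟩ := exists_subset_card_eq (s := L) (n := N) (by omega)
  have x1 : L ⊆ L ∪ B ∪ F := subset_union_left.trans subset_union_left
  refine step_gadget h (X := L ∪ B ∪ F) (A := A) (a1.trans x1)
    (η := c * Fintype.card V / 16) (by positivity) (fun S hS hi => ?_) hj hn ?_ ?_ ?_
  · let L' := L.filter fun u => ∀ s ∈ S, ¬G.Adj s u
    have s1 : L.card ≤ L'.card + ∑ s ∈ S, (L.filter (G.Adj s)).card := by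
      refine (card_le_card (t := L' ∪ S.biUnion fun s => L.filter (G.Adj s)) fun u hu => ?_).trans
        ((card_union_le _ _).trans (Nat.add_le_add_left card_biUnion_le _))
      by_cases e : ∀ s ∈ S, ¬G.Adj s u
      · exact mem_union_left _ (mem_filter.2 ⟨hu, e⟩)
      · push Not at e
        obtain ⟨s, e1, e2⟩ := e
        exact mem_union_right _ (mem_biUnion.2 ⟨s, e1, mem_filter.2 ⟨hu, e2⟩⟩)
    have s2 : (L.card : ℝ) ≤ L'.card + ∑ s ∈ S, b s := by
      simp only [b]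
      exact_mod_cast s1
    have s3 : ∑ s ∈ S, b s ≤ ∑ s ∈ S, y s * L.card / 2 := Finset.sum_le_sum fun s hs =>
      not_lt.1 fun e => disjoint_left.1 hS hs
        (mem_union_left _ (mem_union_right _ (mem_filter.2 ⟨mem_univ _, e⟩)))
    rw [← Finset.sum_div, ← Finset.sum_mul] at s3
    have s4 := h.2 S (Or.inl hi)
    obtain ⟨I, i1, i2, i3⟩ := caro G h.1 L'
    have s5 : L'.card * (c / 2) ≤ ∑ u ∈ L', y u / (dg G u + 1) := by
      rw [← nsmul_eq_mul]
      refine Finset.card_nsmul_le_sum _ _ _ fun u hu => ?_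
      rw [le_div_iff₀ (by positivity)]
      nlinarith [(hL u (mem_filter.1 hu).1).1, hd' u]
    have s6 := h.2 (S ∪ I) (Or.inl fun p hp q hq hpq => by
      rcases mem_union.1 hp with hp | hp <;> rcases mem_union.1 hq with hq | hq
      · exact hi hp hq hpq
      · exact (mem_filter.1 (i1 hq)).2 p hp
      · exact fun x => (mem_filter.1 (i1 hp)).2 q hq x.symm
      · exact i2 hp hq hpq)
    rw [Finset.sum_union (hS.mono_right (i1.trans ((filter_subset _ _).trans x1)))] at s6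
    have s7 : (Fintype.card V : ℝ) ≤ 4 * L.card := by exact_mod_cast L4
    have s8 : (L.card : ℝ) ≤ 2 * L'.card := by nlinarith
    nlinarith
  · rw [a2]
    have e : N * N ≤ ∑ x ∈ F, dg G x := by exact_mod_cast f2
    exact e.trans (Finset.sum_le_sum_of_subset subset_union_right)
  · have e1 := card_le_card x1
    have d1 : Fintype.card V ≤ 8 * ((L ∪ B ∪ F).card - A.card) := by omega
    have d2 : Fintype.card V ≤ 2 * (Fintype.card V - 1) := by omega
    have d3 := Nat.mul_le_mul d1 d2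
    nlinarith
  · rw [a2]
    have e1 := Finset.sum_union_inter (s₁ := L ∪ B) (s₂ := F) (f := y)
    have e2 := Finset.sum_union_inter (s₁ := L) (s₂ := B) (f := y)
    have e3 : 0 ≤ ∑ u ∈ (L ∪ B) ∩ F, y u := Finset.sum_nonneg fun u _ => h.1 u
    have e4 : 0 ≤ ∑ u ∈ L ∩ B, y u := Finset.sum_nonneg fun u _ => h.1 u
    linarith

lemma case_cheap {G : SimpleGraph V} {y : V → ℝ} (h : Feas G y) (hd : ∀ v, 1 ≤ dg G v)
    {U : Finset V} {c D : ℝ} (c0 : 0 < c) (hU : ∀ u ∈ U, y u ≤ c * dg G u ∧ (dg G u : ℝ) ≤ D)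
    (U4 : Fintype.card V ≤ 4 * U.card) (hn : 48 ≤ Fintype.card V) (D0 : 0 < D)
    (D1 : D ≤ Fintype.card V / 48) {v : V} (v1 : (dg G v : ℝ) ≤ Fintype.card V / 32)
    (v2 : 2 * c * (4 * dg G v + 2 + 4 * D) ≤ y v) :
    ∃ (K : SimpleGraph V) (y' : V → ℝ), ec K = ec G + 1 ∧ Feas K y' ∧ ∑ p, y p ≤ ∑ p, y' p := by
  classical
  have hd' : ∀ v, (1 : ℝ) ≤ dg G v := fun v => by exact_mod_cast hd v
  have hn' : (48 : ℝ) ≤ Fintype.card V := by exact_mod_cast hn
  have a2 : (Fintype.card V : ℝ) ≤ 4 * ((U.erase v).card + 1) := by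
    have := pred_card_le_card_erase (s := U) (a := v)
    exact_mod_cast (by omega : Fintype.card V ≤ 4 * ((U.erase v).card + 1))
  have a3 : ((U.erase v).card : ℝ) ≤ ∑ x ∈ U.erase v, (dg G x : ℝ) := by
    simpa using Finset.card_nsmul_le_sum (U.erase v) (fun x => (dg G x : ℝ)) 1 fun x _ => hd' x
  obtain ⟨X, x1, x2, x3⟩ := pick (f := fun x => (dg G x : ℝ)) (B := 4 * dg G v + 2 + 3 * D)
    (by positivity) D0.le (U.erase v) (fun x hx => (hU x (mem_of_mem_erase hx)).2) (by linarith)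
  refine step_subst h (v := v) (X := X) (fun hx => notMem_erase v U (x1 hx)) ?_ ?_ ?_ ?_
  · have c1 := Finset.sum_le_card_nsmul X (fun x => (dg G x : ℝ)) D
      fun x hx => (hU x (mem_of_mem_erase (x1 hx))).2
    rw [nsmul_eq_mul] at c1
    have c2 : (3 : ℝ) < X.card := by nlinarith [hd' v]
    exact_mod_cast c2
  · have : 4 * (dg G v : ℝ) + 2 ≤ ∑ x ∈ X, (dg G x : ℝ) := by linarith
    exact_mod_cast this
  · have : ∑ x ∈ X, (dg G x : ℝ) + 2 ≤ Fintype.card V := by linarith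
    exact_mod_cast this
  · have c1 : ∑ x ∈ X, y x ≤ ∑ x ∈ X, c * (dg G x : ℝ) :=
      Finset.sum_le_sum fun x hx => (hU x (mem_of_mem_erase (x1 hx))).1
    rw [← Finset.mul_sum] at c1
    nlinarith

end Pool.Agent.P.MP_e9161b_co
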