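import Pool.Agent.P.MP_e9161b_co.Basic

/-! Three ways of producing a graph with one more edge. -/

namespace Pool.Agent.P.MP_e9161b_co

open Finset SimpleGraph

variable {V : Type} [Fintype V]

lemma step_isolated {G : SimpleGraph V} {y : V → ℝ} (h : Feas G y) {u v : V} (hu : dg G u = 0)
    (huv : u ≠ v) : ∃ K, ec K = ec G + 1 ∧ Feas K y := by
  classical
  have h1 : ∀ p, ¬G.Adj u p := fun p hp => by
    have := le_dg (G := G) (v := u) (A := {p}) (by simpa using hp)
    rw [hu] at this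
    simp at this
  refine ⟨G ⊔ edge u v, ?_, h.1, fun S hS => h.2 S ?_⟩
  · rw [ec_eq, ec_eq, ← G.card_edgeFinset_sup_edge (h1 v) huv]
    exact congrArg card (Finset.coe_injective (by rw [coe_edgeFinset, coe_edgeFinset]))
  · rcases hS with hS | hS
    · exact Or.inl fun p hp q hq hpq ha => hS hp hq hpq (Or.inl ha)
    · by_cases hm : u ∈ S
      · have h2 : ∀ p ∈ S, p = u ∨ p = v := by
          intro p hp
          by_cases e : p = u
          · exact Or.inl e
          · rcases hS hm hp (Ne.symm e) with a | a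
            · exact absurd a (h1 p)
            · rw [edge_adj] at a
              tauto
        refine Or.inl fun p hp q hq hpq ha => ?_
        rcases h2 p hp with rfl | rfl
        · exact h1 q ha
        · rcases h2 q hq with rfl | rfl
          · exact h1 p ha.symm
          · exact hpq rfl
      · refine Or.inr fun p hp q hq hpq => (hS hp hq hpq).elim id fun a => ?_
        rw [edge_adj] at a
        rcases a.1 with ⟨rfl, -⟩ | ⟨-, rfl⟩
        · exact absurd hp hm
        · exact absurd hq hm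

lemma step_subst {G : SimpleGraph V} {y : V → ℝ} (h : Feas G y) {v : V} {X : Finset V}
    (hv : v ∉ X) (h4 : 4 ≤ X.card) (h1 : 4 * dg G v + 2 ≤ ∑ x ∈ X, dg G x)
    (h2 : ∑ x ∈ X, dg G x + 2 ≤ Fintype.card V) (h3 : ∑ x ∈ X, y x ≤ y v / 2) :
    ∃ (K : SimpleGraph V) (y' : V → ℝ), ec K = ec G + 1 ∧ Feas K y' ∧ ∑ p, y p ≤ ∑ p, y' p := by
  classical
  obtain ⟨a, ha, b, hb, hab⟩ := one_lt_card.1 (show 1 < X.card by omega)
  have hav : a ≠ v := fun e => hv (e ▸ ha)
  have hbv : b ≠ v := fun e => hv (e ▸ hb)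
  let Z := X \ {a, b}
  let T : Finset V := {a, b, v}
  let f : V → V := fun p => if p ∈ T then v else p
  let H : SimpleGraph V :=
    { Adj := fun p q => p ∉ Z ∧ q ∉ Z ∧ (G.Adj (f p) (f q) ∨ (p = a ∧ q = b) ∨ (p = b ∧ q = a))
      symm := ⟨fun _ _ h => ⟨h.2.1, h.1, h.2.2.elim (fun h => Or.inl h.symm) fun h => by tauto⟩⟩
      loopless := ⟨fun _ h => h.2.2.elim (fun h => h.ne rfl) fun h =>
        h.elim (fun h => hab (h.1.symm.trans h.2)) fun h => hab (h.2.symm.trans h.1)⟩ }
  let y' : V → ℝ := fun p => if p ∈ T then y v / 2 else if p ∈ X then 0 else y p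
  have haT : a ∈ T := by simp [T]
  have hbT : b ∈ T := by simp [T]
  have hvT : v ∈ T := by simp [T]
  have hTZ : ∀ p ∈ T, p ∉ Z := by
    intro p hp hz
    simp only [T, Z, mem_insert, mem_singleton, mem_sdiff] at hp hz
    rcases hp with rfl | rfl | rfl
    · exact hz.2 (Or.inl rfl)
    · exact hz.2 (Or.inr rfl)
    · exact hv hz.1
  have hXZ : ∀ p, p ∉ Z → p ∉ T → p ∉ X := by
    intro p hz ht hx
    simp only [T, Z, mem_insert, mem_singleton, mem_sdiff] at ht hz
    tauto
  have hf : ∀ p, p ∉ X → f p = p := by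
    intro p hp
    by_cases e : p ∈ T
    · simp only [T, mem_insert, mem_singleton] at e
      rcases e with rfl | rfl | rfl
      · exact absurd ha hp
      · exact absurd hb hp
      · exact if_pos hvT
    · exact if_neg e
  have hZX : ∀ p, p ∉ X → p ∉ Z := fun p hp hz => hp (mem_sdiff.1 hz).1
  have e1 : ec (del G X) ≤ ec H := ec_mono fun p q hpq =>
    ⟨hZX p hpq.2.1, hZX q hpq.2.2, Or.inl (by rw [hf p hpq.2.1, hf q hpq.2.2]; exact hpq.1)⟩
  have e2 : ec (del H {a, b}) ≤ ec (del G X) := ec_mono fun p q hpq => by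
    obtain ⟨⟨c1, c2, c3⟩, c4, c5⟩ := hpq
    have d1 : p ∉ X := fun hx => c1 (mem_sdiff.2 ⟨hx, c4⟩)
    have d2 : q ∉ X := fun hx => c2 (mem_sdiff.2 ⟨hx, c5⟩)
    rw [hf p d1, hf q d2] at c3
    refine ⟨c3.elim id fun c => ?_, d1, d2⟩
    exact c.elim (fun c => absurd (c.1 ▸ ha) d1) fun c => absurd (c.1 ▸ hb) d1
  obtain ⟨N, hN, hN'⟩ := exists_nbr G v
  have e3 : ∀ p ∈ T, ∀ r, (∀ q, (p = a ∧ q = b) ∨ (p = b ∧ q = a) → q = r) →
      dg H p ≤ dg G v + 1 := by
    intro p hp r hr
    refine (dg_le (A := insert r N) fun q hq => ?_).trans (hN ▸ card_insert_le r N)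
    rcases hq.2.2 with c | c
    · have c1 : f p = v := if_pos hp
      rw [c1] at c
      by_cases c2 : q ∈ T
      · have c3 : f q = v := if_pos c2
        exact absurd c3.symm c.ne
      · have c3 : f q = q := if_neg c2
        exact mem_insert_of_mem ((hN' q).2 (c3 ▸ c))
    · exact hr q c ▸ mem_insert_self _ _
  have e4 := e3 a haT b fun q c => c.elim (fun c => c.2) fun c => absurd c.1 hab
  have e5 := e3 b hbT a fun q c => c.elim (fun c => absurd c.1.symm hab) fun c => c.2
  have e6 := ec_le_del H {a, b}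
  rw [Finset.sum_pair hab] at e6
  have e7 := ec_le_del G X
  have e8 := del_le_ec G X
  have e9 : 2 ≤ Z.card := by
    have := le_card_sdiff ({a, b} : Finset V) X
    rw [card_pair hab] at this
    exact le_trans (by omega) this
  have e10 : 2 * (Fintype.card V - 1) ≤ Z.card * (Fintype.card V - 1) :=
    Nat.mul_le_mul_right _ e9
  have hy0 : ∀ p, 0 ≤ y' p := fun p => by
    have := h.1 v
    have := h.1 p
    simp only [y']
    split_ifs <;> linarith
  have hT3 : T.card = 3 := card_eq_three.2 ⟨a, b, v, hab, hav, hbv, rfl⟩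
  refine (realize H Z (fun p q hpq => hpq.1) hy0 (fun p hp => by
    have : p ∉ T := fun ht => hTZ p ht hp
    simp only [y', if_neg this, if_pos (mem_sdiff.1 hp).1]) (fun S hS hh => ?_)
    (M := ec G + 1) (by omega) (by omega)).imp fun K hK => ⟨y', hK.1, hK.2, ?_⟩
  swap
  · have s1 : ∑ p, y' p = ∑ p ∈ (insert v X)ᶜ, y p + 3 * (y v / 2) := by
      rw [← Finset.sum_add_sum_compl T, add_comm]
      congr 1
      · symm
        refine Finset.sum_subset_zero_on_sdiff (fun p hp => ?_) (fun p hp => ?_) fun p hp => ?_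
        · simp only [T, mem_compl, mem_insert, mem_singleton, not_or] at hp ⊢
          exact ⟨fun e => hp.2 (e ▸ ha), fun e => hp.2 (e ▸ hb), hp.1⟩
        · have c1 : p ∉ T := mem_compl.1 (mem_sdiff.1 hp).1
          have c2 : p ∈ X := by
            have := (mem_sdiff.1 hp).2
            rw [mem_compl, not_not, mem_insert] at this
            exact this.elim (fun e => absurd (e ▸ hvT) c1) id
          simp only [y', if_neg c1, if_pos c2]
        · rw [mem_compl, mem_insert, not_or] at hp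
          have c1 : p ∉ T := by
            simp only [T, mem_insert, mem_singleton, not_or]
            exact ⟨fun e => hp.2 (e ▸ ha), fun e => hp.2 (e ▸ hb), hp.1⟩
          simp only [y', if_neg c1, if_neg hp.2]
      · rw [Finset.sum_congr rfl (g := fun _ => y v / 2) fun p hp => if_pos hp, Finset.sum_const,
          hT3]
        simp
    rw [s1, ← Finset.sum_add_sum_compl (insert v X), Finset.sum_insert hv]
    linarith
  · have hSZ : ∀ p ∈ S, p ∉ Z := fun p hp => disjoint_left.1 hS hp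
    have hSX : ∀ p ∈ S \ T, p ∉ X := fun p hp =>
      hXZ p (hSZ p (mem_sdiff.1 hp).1) (mem_sdiff.1 hp).2
    have adj : ∀ p ∈ S, ∀ q ∈ S \ T, H.Adj p q ↔ G.Adj (f p) q := by
      intro p hp q hq
      have c := hf q (hSX q hq)
      refine ⟨fun hh => hh.2.2.elim (fun x => c ▸ x) fun x => ?_, fun hh =>
        ⟨hSZ p hp, hSZ q (mem_sdiff.1 hq).1, Or.inl (c.symm ▸ hh)⟩⟩
      exact x.elim (fun x => absurd (x.2 ▸ hbT) (mem_sdiff.1 hq).2) fun x =>
        absurd (x.2 ▸ haT) (mem_sdiff.1 hq).2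
    have s1 : ∑ p ∈ S, y' p = ∑ p ∈ S \ T, y p + (S ∩ T).card * (y v / 2) := by
      rw [← Finset.sum_sdiff (inter_subset_left (s₂ := T)), sdiff_inter_self_left]
      congr 1
      · refine Finset.sum_congr rfl fun p hp => ?_
        simp only [y', if_neg (mem_sdiff.1 hp).2, if_neg (hSX p hp)]
      · rw [Finset.sum_congr rfl (g := fun _ => y v / 2) fun p hp => if_pos (mem_inter.1 hp).2,
          Finset.sum_const, nsmul_eq_mul]
    have hom : ∀ R : Finset V, (∀ p ∈ R, ∃ p' ∈ S, f p' = p ∧ (p ≠ v → p' = p ∧ p ∈ S \ T)) →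
        Homog G R := by
      intro R hR
      have key : ∀ p ∈ R, ∀ q ∈ R, p ≠ q → ∃ p' ∈ S, ∃ q' ∈ S, p' ≠ q' ∧
          (H.Adj p' q' ↔ G.Adj p q) := by
        intro p hp q hq hpq
        obtain ⟨p', p1, p2, p3⟩ := hR p hp
        obtain ⟨q', q1, q2, q3⟩ := hR q hq
        refine ⟨p', p1, q', q1, fun e => hpq (by rw [← p2, ← q2, e]), ?_⟩
        by_cases c : q = v
        · obtain ⟨d1, d2⟩ := p3 (c ▸ hpq)
          rw [H.adj_comm, G.adj_comm, d1, adj q' q1 p d2, q2]
        · obtain ⟨d1, d2⟩ := q3 c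
          rw [d1, adj p' p1 q d2, p2]
      rcases hh with hh | hh
      · refine Or.inl fun p hp q hq hpq => ?_
        obtain ⟨p', p1, q', q1, c, d⟩ := key p hp q hq hpq
        exact fun x => hh p1 q1 c (d.2 x)
      · refine Or.inr fun p hp q hq hpq => ?_
        obtain ⟨p', p1, q', q1, c, d⟩ := key p hp q hq hpq
        exact d.1 (hh p1 q1 c)
    have base : ∀ p ∈ S \ T, ∃ p' ∈ S, f p' = p ∧ (p ≠ v → p' = p ∧ p ∈ S \ T) := fun p hp =>
      ⟨p, (mem_sdiff.1 hp).1, hf p (hSX p hp), fun _ => ⟨rfl, hp⟩⟩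
    rw [s1]
    rcases (S ∩ T).eq_empty_or_nonempty with c | ⟨t, ht⟩
    · rw [c]
      simpa using h.2 _ (hom _ base)
    · have c1 := h.2 _ (hom (insert v (S \ T)) fun p hp => by
        rcases mem_insert.1 hp with rfl | hp
        · exact ⟨t, (mem_inter.1 ht).1, if_pos (mem_inter.1 ht).2, fun e => absurd rfl e⟩
        · exact base p hp)
      rw [Finset.sum_insert fun c => (mem_sdiff.1 c).2 hvT] at c1
      have c2 : (S ∩ T).card ≤ 2 := by
        by_contra c
        have c3 : S ∩ T = T := eq_of_subset_of_card_le inter_subset_right (by omega)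
        have c4 : ∀ p ∈ T, p ∈ S := fun p hp => (mem_inter.1 (c3.symm ▸ hp)).1
        rcases hh with hh | hh
        · exact hh (c4 a haT) (c4 b hbT) hab ⟨hTZ a haT, hTZ b hbT, Or.inr (Or.inl ⟨rfl, rfl⟩)⟩
        · rcases (hh (c4 a haT) (c4 v hvT) hav).2.2 with x | x | x
          · have d1 : f a = v := if_pos haT
            have d2 : f v = v := if_pos hvT
            exact x.ne (d1.trans d2.symm)
          · exact hbv x.2.symm
          · exact hab x.1
      have c3 : ((S ∩ T).card : ℝ) ≤ 2 := by exact_mod_cast c2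
      have := h.1 v
      nlinarith

lemma step_erdos {j k M : ℕ} (hj : 1 ≤ j) (hn : Fintype.card V ≤ 2 ^ j) (hk : k ≤ Fintype.card V)
    (h1 : k * k ≤ M) (h2 : 2 * M ≤ (Fintype.card V - k) * (Fintype.card V - 1)) :
    ∃ (K : SimpleGraph V) (y : V → ℝ), ec K = M ∧ Feas K y ∧ ∑ p, y p = k / (2 * j) := by
  classical
  obtain ⟨H, hH⟩ := erdos hj hn
  obtain ⟨A, -, hA⟩ := exists_subset_card_eq (s := (univ : Finset V)) hk
  have hj' : (0 : ℝ) < 2 * j := by positivity
  let y : V → ℝ := fun p => if p ∈ A then 1 / (2 * j) else 0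
  have e1 : ec (del H Aᶜ) ≤ k * k := by
    have c := handshake (del H Aᶜ)
    rw [← Finset.sum_add_sum_compl A] at c
    have c1 : ∑ x ∈ Aᶜ, dg (del H Aᶜ) x = 0 := Finset.sum_eq_zero fun x hx =>
      Nat.le_zero.1 (dg_le (A := ∅) fun u hu => absurd hx hu.2.1)
    have c2 : ∑ x ∈ A, dg (del H Aᶜ) x ≤ A.card • k := Finset.sum_le_card_nsmul _ _ _ fun x _ =>
      hA ▸ dg_le fun u hu => by simpa using hu.2.2
    rw [hA, smul_eq_mul] at c2
    omega
  refine (realize (del H Aᶜ) Aᶜ (fun p q hpq => hpq.2.1) (y := y)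
    (fun p => by simp only [y]; split_ifs <;> positivity)
    (fun p hp => if_neg (mem_compl.1 hp)) (fun S hS hh => ?_) (M := M) (e1.trans h1)
    (by rw [card_compl, hA]; omega)).imp fun K hK => ⟨y, hK.1, hK.2, ?_⟩
  swap
  · simp only [y]
    rw [Finset.sum_ite_mem, univ_inter, Finset.sum_const, hA, nsmul_eq_mul, mul_one_div]
  · have c1 : ∀ p ∈ S, p ∉ Aᶜ := fun p hp => disjoint_left.1 hS hp
    have c2 : S.card ≤ 2 * j := hH S (hh.imp
      (fun x p hp q hq hpq ha => x hp hq hpq ⟨ha, c1 p hp, c1 q hq⟩)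
      fun x p hp q hq hpq => (x hp hq hpq).1)
    rw [Finset.sum_congr rfl (g := fun _ => 1 / (2 * (j : ℝ))) fun p hp =>
      if_pos (by simpa using c1 p hp), Finset.sum_const, nsmul_eq_mul, mul_one_div,
      div_le_one hj']
    exact_mod_cast c2

omit [Fintype V] in
lemma pick {f : V → ℝ} {D B : ℝ} (hB : 0 ≤ B) (hD : 0 ≤ D) (A : Finset V)
    (h1 : ∀ x ∈ A, f x ≤ D) (h2 : B ≤ ∑ x ∈ A, f x) :
    ∃ X ⊆ A, B ≤ ∑ x ∈ X, f x ∧ ∑ x ∈ X, f x ≤ B + D := by
  classical
  induction A using Finset.induction_on with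
  | empty => exact ⟨∅, Subset.rfl, h2, by simpa using add_nonneg hB hD⟩
  | insert a A ha ih =>
    by_cases c : B ≤ ∑ x ∈ A, f x
    · obtain ⟨X, x1, x2⟩ := ih (fun x hx => h1 x (mem_insert_of_mem hx)) c
      exact ⟨X, x1.trans (subset_insert _ _), x2⟩
    · refine ⟨_, Subset.rfl, h2, ?_⟩
      rw [Finset.sum_insert ha]
      linarith [h1 a (mem_insert_self _ _), not_le.1 c]

end Pool.Agent.P.MP_e9161b_co
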